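import Pool.Agent.X288.LN.Basic

/-!
# Two families of automorphisms of `O[τ][u]`
-/

set_option autoImplicit false

open Polynomial

namespace Pool.Agent.X288.LN

section auto

variable {O : Type*} [CommRing O]

noncomputable def tt : O[X][X] := C X

noncomputable def cst (o : O) : O[X][X] := C (C o)

noncomputable def zz (π : O) : O[X][X] := X + cst π * tt

noncomputable def hh (π ω : O) : O[X][X] := tt + cst ω * zz π ^ 2

/-- `τ ↦ τ + δ h`, `u ↦ u - δ π h`. -/
noncomputable def Ed (π ω δ : O) : O[X][X] →ₐ[O] O[X][X] :=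
  Polynomial.eval₂AlgHom (Polynomial.aeval (tt + cst δ * hh π ω))
    (X - cst δ * cst π * hh π ω) (fun _ => Commute.all _ _)

/-- `τ ↦ τ + ν u`, `u ↦ u`. -/
noncomputable def Ph (ν : O) : O[X][X] →ₐ[O] O[X][X] :=
  Polynomial.eval₂AlgHom (Polynomial.aeval (tt + cst ν * X)) X (fun _ => Commute.all _ _)

variable (π ω δ ν : O)

theorem Ed_cst (o : O) : Ed π ω δ (cst o) = cst o := (Ed π ω δ).commutes o

theorem Ed_tt : Ed π ω δ tt = tt + cst δ * hh π ω := by
  simp [Ed, tt]

theorem Ed_X : Ed π ω δ X = X - cst δ * cst π * hh π ω := by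
  simp [Ed]

theorem Ph_cst (o : O) : Ph ν (cst o) = cst o := (Ph ν).commutes o

theorem Ph_tt : Ph ν tt = tt + cst ν * X := by
  simp [Ph, tt]

theorem Ph_X : Ph ν (X : O[X][X]) = X := by
  simp [Ph]

theorem cst_add (a b : O) : cst (a + b) = cst a + cst b := by simp [cst]
theorem cst_mul (a b : O) : cst (a * b) = cst a * cst b := by simp [cst]
theorem cst_zero : cst (0 : O) = 0 := by simp [cst]

theorem Ed_hh : Ed π ω δ (hh π ω) = (1 + cst δ) * hh π ω := by
  have hz : Ed π ω δ (zz π) = zz π := by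
    unfold zz
    rw [map_add, map_mul, Ed_X, Ed_cst, Ed_tt]
    ring
  conv_lhs => unfold hh
  rw [map_add, map_mul, map_pow, hz, Ed_cst, Ed_tt]
  conv_rhs => rw [add_mul, one_mul]
  conv_rhs => enter [1]; unfold hh
  ring

theorem Ed_comp {δ δ' : O} (h : δ + δ' + δ * δ' = 0) (q : O[X][X]) :
    Ed π ω δ (Ed π ω δ' q) = q := by
  have hc : cst δ + cst δ' + cst δ * cst δ' = 0 := by
    rw [← cst_add, ← cst_mul, ← cst_add, h, cst_zero]
  have e : (Ed π ω δ).comp (Ed π ω δ') = AlgHom.id O _ := by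
    apply Polynomial.algHom_ext'
    · apply Polynomial.algHom_ext
      show Ed π ω δ (Ed π ω δ' tt) = tt
      rw [Ed_tt, map_add, map_mul, Ed_cst, Ed_hh, Ed_tt]
      linear_combination hh π ω * hc
    · show Ed π ω δ (Ed π ω δ' X) = X
      rw [Ed_X, map_sub, map_mul, map_mul, Ed_cst, Ed_cst, Ed_hh, Ed_X]
      linear_combination (-cst π * hh π ω) * hc
  exact DFunLike.congr_fun e q

theorem Ph_comp {ν ν' : O} (h : ν + ν' = 0) (q : O[X][X]) : Ph ν (Ph ν' q) = q := by
  have hc : cst ν + cst ν' = 0 := by rw [← cst_add, h, cst_zero]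
  have e : (Ph ν).comp (Ph ν') = AlgHom.id O _ := by
    apply Polynomial.algHom_ext'
    · apply Polynomial.algHom_ext
      show Ph ν (Ph ν' tt) = tt
      rw [Ph_tt, map_add, map_mul, Ph_cst, Ph_X, Ph_tt]
      linear_combination X * hc
    · show Ph ν (Ph ν' X) = X
      rw [Ph_X, Ph_X]
  exact DFunLike.congr_fun e q

end auto

section closure

variable {K R : Type*} [Field K] [CommRing R] [Algebra K R] {a b : R}

theorem H_smul (c : K) (h : a ∈ HDstar K R) : c • a ∈ HDstar K R := Subalgebra.smul_mem _ h c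
theorem H_sub (h : a ∈ HDstar K R) (h' : b ∈ HDstar K R) : a - b ∈ HDstar K R :=
  Subalgebra.sub_mem _ h h'
theorem H_add (h : a ∈ HDstar K R) (h' : b ∈ HDstar K R) : a + b ∈ HDstar K R :=
  Subalgebra.add_mem _ h h'
theorem H_mul (h : a ∈ HDstar K R) (h' : b ∈ HDstar K R) : a * b ∈ HDstar K R :=
  Subalgebra.mul_mem _ h h'
theorem H_zero : (0 : R) ∈ HDstar K R := Subalgebra.zero_mem _

end closure

section extract

variable {K B : Type*} [Field K] [CharZero K] [CommRing B] [Algebra K B]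

/-- The linear term of an element of degree at most three of the modified Derksen invariant. -/
theorem extract (b0 b1 b2 b3 : B)
    (h : (C b0 + C b1 * X + C b2 * X ^ 2 + C b3 * X ^ 3 : B[X]) ∈ HDstar K B[X]) :
    (C b1 * X : B[X]) ∈ HDstar K B[X] := by
  obtain ⟨ψ, hψ⟩ := exists_scale (B := B) (-1 : K) (by norm_num)
  obtain ⟨χ, hχ⟩ := exists_scale (B := B) (2 : K) (by norm_num)
  have h1 := HDstar_stable ψ h
  have e1 : ψ (C b0 + C b1 * X + C b2 * X ^ 2 + C b3 * X ^ 3) =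
      C b0 - C b1 * X + C b2 * X ^ 2 - C b3 * X ^ 3 := by
    have a0 := hψ b0 0
    have a1 := hψ b1 1
    have a2 := hψ b2 2
    have a3 := hψ b3 3
    simp only [map_neg, map_one, pow_zero, pow_one, mul_one, one_mul, neg_mul] at a0 a1 a2 a3
    rw [map_add, map_add, map_add, a0, a1, a2, a3]
    rw [show (-1 : B) ^ 2 = 1 by ring, show (-1 : B) ^ 3 = -1 by ring, one_mul, neg_one_mul,
      C_neg]
    ring
  rw [e1] at h1
  have h2 := Subalgebra.sub_mem _ h h1
  have e2 : (C b0 + C b1 * X + C b2 * X ^ 2 + C b3 * X ^ 3 : B[X]) -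
      (C b0 - C b1 * X + C b2 * X ^ 2 - C b3 * X ^ 3) = 2 * (C b1 * X) + 2 * (C b3 * X ^ 3) := by
    ring
  rw [e2] at h2
  have h3 := HDstar_stable χ h2
  have e3 : χ (2 * (C b1 * X) + 2 * (C b3 * X ^ 3)) =
      4 * (C b1 * X) + 16 * (C b3 * X ^ 3) := by
    have a1 := hχ b1 1
    have a3 := hχ b3 3
    have hm : (algebraMap K B 2) = 2 := map_ofNat _ 2
    rw [pow_one, pow_one] at a1
    rw [map_add, map_mul χ 2, map_mul χ 2, a1, a3, map_ofNat, hm, C_mul, C_mul, C_pow]
    have : (C (2 : B) : B[X]) = 2 := map_ofNat C 2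
    rw [this]
    ring
  rw [e3] at h3
  have h4 := Subalgebra.sub_mem _ (Subalgebra.smul_mem _ h2 (8 : K)) h3
  have h5 := Subalgebra.smul_mem _ h4 ((1 : K) / 12)
  have e4 : ((1 : K) / 12) • ((8 : K) • (2 * (C b1 * X) + 2 * (C b3 * X ^ 3)) -
      (4 * (C b1 * X) + 16 * (C b3 * X ^ 3)) : B[X]) = C b1 * X := by
    have : ((8 : K) • (2 * (C b1 * X) + 2 * (C b3 * X ^ 3)) -
      (4 * (C b1 * X) + 16 * (C b3 * X ^ 3)) : B[X]) = (12 : K) • (C b1 * X) := by
      rw [Algebra.smul_def, Algebra.smul_def, map_ofNat, map_ofNat]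
      ring
    rw [this, smul_smul]
    norm_num
  rwa [e4] at h5

end extract

end Pool.Agent.X288.LN
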