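import Mathlib

/-!
# Locally nilpotent derivations, the modified Derksen invariant of a cylinder
-/

set_option autoImplicit false

open Polynomial

namespace Pool.Agent.X288.LN

section defs

variable (K R : Type*) [Field K] [CommRing R] [Algebra K R]

/-- A derivation is locally nilpotent if every element is killed by some power of it. -/
def IsLND {K R : Type*} [Field K] [CommRing R] [Algebra K R] (D : Derivation K R R) : Prop :=
  ∀ a, ∃ n : ℕ, (⇑D)^[n] a = 0

/-- The modified Derksen invariant: the subalgebra generated by the kernels of all locally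
nilpotent derivations which have a slice. -/
def HDstar : Subalgebra K R :=
  Algebra.adjoin K {a | ∃ D : Derivation K R R, IsLND D ∧ (∃ s, D s = 1) ∧ D a = 0}

/-- The ideal generated by the images of all locally nilpotent derivations. -/
def imageIdeal : Ideal R :=
  Ideal.span {a | ∃ (D : Derivation K R R) (b : R), IsLND D ∧ D b = a}

end defs

section general

variable {K R : Type*} [Field K] [CommRing R] [Algebra K R]

theorem iterate_mul (D : Derivation K R R) (k : ℕ) : ∀ (m n : ℕ) (a b : R), m + n = k →
    (⇑D)^[m + 1] a = 0 → (⇑D)^[n + 1] b = 0 →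
    (⇑D)^[m + n] (a * b) = (m + n).choose m • ((⇑D)^[m] a * (⇑D)^[n] b) := by
  induction k with
  | zero =>
    intro m n a b hk _ _
    obtain rfl : m = 0 := by omega
    obtain rfl : n = 0 := by omega
    simp
  | succ k ih =>
    intro m n a b hk ha hb
    rw [hk, Function.iterate_succ_apply, D.leibniz, smul_eq_mul, smul_eq_mul, iterate_map_add]
    rcases m with _ | m
    · have ha' : D a = 0 := by simpa using ha
      obtain rfl : n = k + 1 := by omega
      rw [ha', mul_zero]
      have h0 : (⇑D)^[k] (0 : R) = 0 := iterate_map_zero D k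
      have := ih 0 k a (D b) (by omega) (by simpa using ha)
        (by rw [← Function.iterate_succ_apply]; exact hb)
      rw [zero_add] at this
      rw [h0, add_zero, this]
      simp only [Nat.choose_zero_right, Function.iterate_succ_apply]
    · rcases n with _ | n
      · have hb' : D b = 0 := by simpa using hb
        obtain rfl : m = k := by omega
        rw [hb', mul_zero]
        have h0 : (⇑D)^[m] (0 : R) = 0 := iterate_map_zero D m
        have := ih m 0 (D a) b (by omega) (by rw [← Function.iterate_succ_apply]; exact ha)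
          (by simpa using hb)
        rw [add_zero] at this
        rw [h0, zero_add, mul_comm b, this]
        simp only [Nat.choose_self, add_zero, Function.iterate_succ_apply]
      · have e1 := ih (m + 1) n a (D b) (by omega) ha
          (by rw [← Function.iterate_succ_apply]; exact hb)
        have e2 := ih m (n + 1) (D a) b (by omega)
          (by rw [← Function.iterate_succ_apply]; exact ha) hb
        rw [show k = (m + 1) + n by omega, e1, mul_comm b,
          show (m + 1) + n = m + (n + 1) by omega, e2, ← Function.iterate_succ_apply,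
          ← Function.iterate_succ_apply, ← add_smul]
        congr 1
        rw [show m + (n + 1) + 1 = (m + (n + 1)) + 1 by omega, Nat.choose_succ_succ, add_comm]

/-- Locally nilpotent derivations of a domain of characteristic zero kill the units. -/
theorem unit_kill [IsDomain R] [CharZero R] {D : Derivation K R R} (hD : IsLND D) {a b : R}
    (hab : a * b = 1) : D a = 0 := by
  classical
  have hmin : ∀ c : R, c ≠ 0 → ∃ m, (⇑D)^[m] c ≠ 0 ∧ (⇑D)^[m + 1] c = 0 := by
    intro c hc
    have h1 := Nat.find_spec (hD c)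
    have h2 : ∀ t, t < Nat.find (hD c) → ¬ (⇑D)^[t] c = 0 := fun t ht => Nat.find_min (hD c) ht
    generalize Nat.find (hD c) = n at h1 h2
    rcases n with _ | n
    · exact absurd h1 hc
    · exact ⟨n, h2 n (by omega), h1⟩
  obtain ⟨m, hm1, hm2⟩ := hmin a (left_ne_zero_of_mul (by rw [hab]; exact one_ne_zero))
  obtain ⟨n, hn1, hn2⟩ := hmin b (right_ne_zero_of_mul (by rw [hab]; exact one_ne_zero))
  have h := iterate_mul D (m + n) m n a b rfl hm2 hn2
  rcases Nat.eq_zero_or_pos m with rfl | hm
  · simpa using hm2
  · exfalso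
    rw [hab, show m + n = (m + n - 1) + 1 by omega, Function.iterate_succ_apply,
      D.map_one_eq_zero, iterate_map_zero, ← show m + n = (m + n - 1) + 1 by omega] at h
    have h3 : ((m + n).choose m : R) ≠ 0 := Nat.cast_ne_zero.2 (Nat.choose_pos (by omega)).ne'
    rw [nsmul_eq_mul] at h
    exact mul_ne_zero h3 (mul_ne_zero hm1 hn1) h.symm

/-- Conjugation of a derivation by an automorphism. -/
def conj (ψ : R ≃ₐ[K] R) (D : Derivation K R R) : Derivation K R R :=
  Derivation.mk' (ψ.toLinearMap ∘ₗ (D : R →ₗ[K] R) ∘ₗ ψ.symm.toLinearMap) (by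
    intro a b
    simp only [LinearMap.comp_apply, AlgEquiv.toLinearMap_apply, Derivation.coeFn_coe, map_mul,
      Derivation.leibniz, smul_eq_mul, map_add, AlgEquiv.apply_symm_apply])

theorem conj_apply (ψ : R ≃ₐ[K] R) (D : Derivation K R R) (a : R) :
    conj ψ D a = ψ (D (ψ.symm a)) := rfl

theorem conj_iterate (ψ : R ≃ₐ[K] R) (D : Derivation K R R) (n : ℕ) (a : R) :
    (⇑(conj ψ D))^[n] a = ψ ((⇑D)^[n] (ψ.symm a)) := by
  induction n with
  | zero => simp
  | succ n ih => rw [Function.iterate_succ_apply', ih, conj_apply, ψ.symm_apply_apply,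
      Function.iterate_succ_apply']

theorem HDstar_stable (ψ : R ≃ₐ[K] R) {a : R} (ha : a ∈ HDstar K R) : ψ a ∈ HDstar K R := by
  unfold HDstar at ha ⊢
  induction ha using Algebra.adjoin_induction with
  | mem x hx =>
    obtain ⟨D, hD, ⟨s, hs⟩, hDx⟩ := hx
    apply Algebra.subset_adjoin
    refine ⟨conj ψ D, fun b => ?_, ⟨ψ s, ?_⟩, ?_⟩
    · obtain ⟨n, hn⟩ := hD (ψ.symm b)
      exact ⟨n, by rw [conj_iterate, hn, map_zero]⟩
    · rw [conj_apply, ψ.symm_apply_apply, hs, map_one]
    · rw [conj_apply, ψ.symm_apply_apply, hDx, map_zero]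
  | algebraMap r => rw [ψ.commutes]; exact Subalgebra.algebraMap_mem _ _
  | add x y _ _ hx hy => rw [map_add]; exact Subalgebra.add_mem _ hx hy
  | mul x y _ _ hx hy => rw [map_mul]; exact Subalgebra.mul_mem _ hx hy

end general

section cylinder

variable {K B : Type*} [Field K] [CommRing B] [Algebra K B]

theorem C_mem (b : B) : (C b : B[X]) ∈ HDstar K B[X] := by
  apply Algebra.subset_adjoin
  refine ⟨(Polynomial.derivative' (R := B)).restrictScalars K, fun f => ?_, ⟨X, ?_⟩, ?_⟩
  · refine ⟨f.natDegree + 1, ?_⟩
    exact Polynomial.iterate_derivative_eq_zero (Nat.lt_succ_self _)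
  · exact derivative_X
  · exact derivative_C

theorem top_of_X_mem (h : (X : B[X]) ∈ HDstar K B[X]) : HDstar K B[X] = ⊤ := by
  rw [eq_top_iff]
  rintro f -
  induction f using Polynomial.induction_on' with
  | add p q hp hq => exact Subalgebra.add_mem _ hp hq
  | monomial n a =>
    rw [← C_mul_X_pow_eq_monomial]
    exact Subalgebra.mul_mem _ (C_mem a) (Subalgebra.pow_mem _ h n)

/-- The automorphism `u ↦ c u`. -/
theorem exists_scale (c : K) (hc : c ≠ 0) : ∃ ψ : B[X] ≃ₐ[K] B[X], ∀ (b : B) (n : ℕ),
    ψ (C b * X ^ n) = C (algebraMap K B c ^ n * b) * X ^ n := by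
  let f : K → (B[X] →ₐ[B] B[X]) := fun c => aeval (C (algebraMap K B c) * X)
  have hf : ∀ c d, (f c).comp (f d) = f (d * c) := by
    intro c d
    apply Polynomial.algHom_ext
    simp only [f, AlgHom.comp_apply, aeval_X, map_mul, aeval_C, Polynomial.algebraMap_apply,
      Algebra.algebraMap_self, RingHom.id_apply]
    ring
  have h1 : f 1 = AlgHom.id B B[X] := by
    apply Polynomial.algHom_ext
    simp [f]
  refine ⟨((AlgEquiv.ofAlgHom (f c) (f c⁻¹) (by rw [hf, inv_mul_cancel₀ hc, h1])
    (by rw [hf, mul_inv_cancel₀ hc, h1])).restrictScalars K), fun b n => ?_⟩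
  show f c (C b * X ^ n) = _
  simp only [f, map_mul, aeval_C, map_pow, aeval_X, Polynomial.algebraMap_apply,
    Algebra.algebraMap_self, RingHom.id_apply]
  rw [mul_pow]
  ring

end cylinder

section ambient

variable {K T : Type*} [Field K] [CommRing T] [Algebra K T] (B : Subalgebra K T)

/-- The embedding `B[u] → T[u]`. -/
noncomputable def emb : B[X] →ₐ[K] T[X] := Polynomial.mapAlgHom B.val

theorem emb_C (b : B) : emb B (C b) = C (b : T) := by
  simp [emb]

theorem emb_X : emb B X = X := by
  simp [emb]

theorem emb_injective : Function.Injective (emb B) := by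
  intro p q h
  have h' : p.map (B.val : B →+* T) = q.map (B.val : B →+* T) := h
  exact Polynomial.map_injective _ Subtype.val_injective h'

theorem C_mem_range {b : T} (hb : b ∈ B) : C b ∈ (emb B).range := ⟨C ⟨b, hb⟩, emb_C B _⟩

theorem X_mem_range : (X : T[X]) ∈ (emb B).range := ⟨X, emb_X B⟩

theorem map_range {S : Set T} (hB : B = Algebra.adjoin K S) (E : T[X] →ₐ[K] T[X])
    (hS : ∀ b ∈ S, E (C b) ∈ (emb B).range) (hX : E X ∈ (emb B).range) :
    ∀ q ∈ (emb B).range, E q ∈ (emb B).range := by
  have hC : ∀ b ∈ Algebra.adjoin K S, E (C b) ∈ (emb B).range := by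
    intro b hb
    induction hb using Algebra.adjoin_induction with
    | mem x hx => exact hS x hx
    | algebraMap r =>
      have : (C (algebraMap K T r) : T[X]) = algebraMap K T[X] r := rfl
      rw [this, E.commutes]
      exact Subalgebra.algebraMap_mem _ _
    | add x y _ _ hx hy => rw [C_add, map_add]; exact Subalgebra.add_mem _ hx hy
    | mul x y _ _ hx hy => rw [C_mul, map_mul]; exact Subalgebra.mul_mem _ hx hy
  rintro q ⟨r, rfl⟩
  show E (emb B r) ∈ _
  induction r using Polynomial.induction_on' with
  | add p q hp hq => rw [map_add, map_add]; exact Subalgebra.add_mem _ hp hq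
  | monomial n a =>
    rw [← C_mul_X_pow_eq_monomial, map_mul, map_pow, emb_C, emb_X, map_mul, map_pow]
    exact Subalgebra.mul_mem _ (hC _ (hB ▸ a.2)) (Subalgebra.pow_mem _ hX n)

theorem exists_equiv (E E' : T[X] →ₐ[K] T[X]) (h : ∀ q, E (E' q) = q) (h' : ∀ q, E' (E q) = q)
    (hE : ∀ q ∈ (emb B).range, E q ∈ (emb B).range)
    (hE' : ∀ q ∈ (emb B).range, E' q ∈ (emb B).range) :
    ∃ ψ : B[X] ≃ₐ[K] B[X], ∀ r, emb B (ψ r) = E (emb B r) := by
  let e : B[X] ≃ₐ[K] (emb B).range := AlgEquiv.ofInjective (emb B) (emb_injective B)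
  have he : ∀ y : (emb B).range, emb B (e.symm y) = y := by
    intro y
    have := e.apply_symm_apply y
    exact congrArg Subtype.val this
  let f : (E : T[X] →ₐ[K] T[X]) → (∀ q ∈ (emb B).range, E q ∈ (emb B).range) →
      (B[X] →ₐ[K] B[X]) := fun E hE =>
    (e.symm : (emb B).range →ₐ[K] B[X]).comp
      ((E.comp (emb B)).codRestrict (emb B).range fun r => hE _ ⟨r, rfl⟩)
  have hf : ∀ E hE r, emb B (f E hE r) = E (emb B r) := by
    intro E hE r
    exact he _
  refine ⟨AlgEquiv.ofAlgHom (f E hE) (f E' hE') ?_ ?_, fun r => hf E hE r⟩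
  · apply AlgHom.ext
    intro r
    apply emb_injective B
    rw [AlgHom.comp_apply, hf, hf, h]
    rfl
  · apply AlgHom.ext
    intro r
    apply emb_injective B
    rw [AlgHom.comp_apply, hf, hf, h']
    rfl

end ambient

end Pool.Agent.X288.LN
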