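import Pool.Agent.X288.LN.Auto

/-!
# The first surface
-/

set_option autoImplicit false

open Polynomial

namespace Pool.Agent.X288.LN.A

variable (K : Type*) [Field K] {O : Type*} [CommRing O] [Algebra K O] (x a : O)

noncomputable def sT : O[X] := C x ^ 2 * X

noncomputable def vT : O[X] := C x * X * (sT x + 1)

noncomputable def wT : O[X] := X * (sT x + 1) ^ 2

def gens : Set O[X] := {C x, C a, sT x, vT x, wT x}

/-- The coordinate ring: the subalgebra of `O[t]` generated by `x`, `a`, `s = x² t`,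
`v = x t (s + 1)` and `w = t (s + 1)²`. -/
noncomputable def B : Subalgebra K O[X] := Algebra.adjoin K (gens x a)

theorem x_mem : C x ∈ B K x a := Algebra.subset_adjoin (by simp [gens])
theorem a_mem : C a ∈ B K x a := Algebra.subset_adjoin (by simp [gens])
theorem s_mem : sT x ∈ B K x a := Algebra.subset_adjoin (by simp [gens])
theorem v_mem : vT x ∈ B K x a := Algebra.subset_adjoin (by simp [gens])
theorem w_mem : wT x ∈ B K x a := Algebra.subset_adjoin (by simp [gens])

theorem CsT : (C (sT x) : O[X][X]) = cst x ^ 2 * tt := by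
  simp [sT, cst, tt]

theorem CvT : (C (vT x) : O[X][X]) =
    cst x * tt * (cst x ^ 2 * tt + 1) := by
  simp [vT, sT, cst, tt]

theorem CwT : (C (wT x) : O[X][X]) = tt * (cst x ^ 2 * tt + 1) ^ 2 := by
  simp [wT, sT, cst, tt]

theorem cst_one {O : Type*} [CommRing O] : cst (1 : O) = 1 := by simp [cst]

/-- `η` -/
noncomputable def eta : O[X][X] :=
  C (vT x) + 2 * C (sT x) * X + cst x * X ^ 2

theorem eta_eq : cst x * hh x 1 = eta x := by
  unfold eta hh zz
  rw [CvT, CsT, cst_one]
  ring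

theorem Ed_s (δ : O) : Ed x 1 δ (C (sT x)) =
    C (sT x) + cst δ * cst x * eta x := by
  rw [← eta_eq, CsT, map_mul, map_pow, Ed_cst, Ed_tt]
  ring

theorem Ed_v (δ : O) : Ed x 1 δ (C (vT x)) =
    C (vT x) + cst δ * (2 * C (sT x) + 1) * eta x + cst δ ^ 2 * cst x * eta x ^ 2 := by
  rw [← eta_eq, CvT, CsT, map_mul, map_mul, map_add, map_mul, map_pow, Ed_cst, Ed_tt, map_one]
  ring

theorem Ed_w (δ : O) : Ed x 1 δ (C (wT x)) =
    C (wT x) + cst δ * (2 * C (vT x) * eta x + (C (sT x) + 1) *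
      (C (wT x) + 2 * X * C (vT x) + (C (sT x) + 1) * X ^ 2)) +
      cst δ ^ 2 * (3 * C (sT x) + 2) * eta x ^ 2 + cst δ ^ 3 * cst x * eta x ^ 3 := by
  rw [← eta_eq, CwT, CvT, CsT, map_mul, map_pow, map_add, map_mul, map_pow, Ed_cst, Ed_tt,
    map_one]
  unfold hh zz
  rw [cst_one]
  ring

theorem Ed_u (δ : O) : Ed x 1 δ X = X - cst δ * eta x := by
  rw [Ed_X, ← eta_eq]
  ring

theorem cst_algebraMap (c : K) : (cst (algebraMap K O c)) =
    algebraMap K O[X][X] c := rfl

section mems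

variable {K} {Q : Type*} [CommRing Q] [Algebra K Q] (R : Subalgebra K Q) {D x S V W U E : Q}

theorem m0 (hx : x ∈ R) (hS : S ∈ R) (hV : V ∈ R) (hU : U ∈ R) :
    V + 2 * S * U + x * U ^ 2 ∈ R := by
  repeat' (first
    | assumption
    | exact Subalgebra.one_mem _
    | exact ofNat_mem _ _
    | apply Subalgebra.add_mem
    | apply Subalgebra.sub_mem
    | apply Subalgebra.mul_mem
    | apply Subalgebra.pow_mem)

theorem m1 (hD : D ∈ R) (hx : x ∈ R) (hS : S ∈ R) (hE : E ∈ R) : S + D * x * E ∈ R := by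
  repeat' (first
    | assumption
    | exact Subalgebra.one_mem _
    | exact ofNat_mem _ _
    | apply Subalgebra.add_mem
    | apply Subalgebra.sub_mem
    | apply Subalgebra.mul_mem
    | apply Subalgebra.pow_mem)

theorem m2 (hD : D ∈ R) (hx : x ∈ R) (hS : S ∈ R) (hV : V ∈ R) (hE : E ∈ R) :
    V + D * (2 * S + 1) * E + D ^ 2 * x * E ^ 2 ∈ R := by
  repeat' (first
    | assumption
    | exact Subalgebra.one_mem _
    | exact ofNat_mem _ _
    | apply Subalgebra.add_mem
    | apply Subalgebra.sub_mem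
    | apply Subalgebra.mul_mem
    | apply Subalgebra.pow_mem)

theorem m3 (hD : D ∈ R) (hx : x ∈ R) (hS : S ∈ R) (hV : V ∈ R) (hW : W ∈ R) (hU : U ∈ R)
    (hE : E ∈ R) :
    W + D * (2 * V * E + (S + 1) * (W + 2 * U * V + (S + 1) * U ^ 2)) +
      D ^ 2 * (3 * S + 2) * E ^ 2 + D ^ 3 * x * E ^ 3 ∈ R := by
  repeat' (first
    | assumption
    | exact Subalgebra.one_mem _
    | exact ofNat_mem _ _
    | apply Subalgebra.add_mem
    | apply Subalgebra.sub_mem
    | apply Subalgebra.mul_mem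
    | apply Subalgebra.pow_mem)

theorem m4 (hD : D ∈ R) (hU : U ∈ R) (hE : E ∈ R) : U - D * E ∈ R := by
  repeat' (first
    | assumption
    | exact Subalgebra.one_mem _
    | exact ofNat_mem _ _
    | apply Subalgebra.add_mem
    | apply Subalgebra.sub_mem
    | apply Subalgebra.mul_mem
    | apply Subalgebra.pow_mem)

theorem m5 (hD : D ∈ R) (hx : x ∈ R) (hS : S ∈ R) (hU : U ∈ R) : S + D * x ^ 2 * U ∈ R := by
  repeat' (first
    | assumption
    | exact Subalgebra.one_mem _
    | exact ofNat_mem _ _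
    | apply Subalgebra.add_mem
    | apply Subalgebra.sub_mem
    | apply Subalgebra.mul_mem
    | apply Subalgebra.pow_mem)

theorem m6 (hD : D ∈ R) (hx : x ∈ R) (hS : S ∈ R) (hV : V ∈ R) (hU : U ∈ R) :
    V + D * ((2 * S + 1) * x) * U + D ^ 2 * x ^ 3 * U ^ 2 ∈ R := by
  repeat' (first
    | assumption
    | exact Subalgebra.one_mem _
    | exact ofNat_mem _ _
    | apply Subalgebra.add_mem
    | apply Subalgebra.sub_mem
    | apply Subalgebra.mul_mem
    | apply Subalgebra.pow_mem)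

theorem m7 (hD : D ∈ R) (hx : x ∈ R) (hS : S ∈ R) (hW : W ∈ R) (hU : U ∈ R) :
    W + D * ((S + 1) * (3 * S + 1)) * U + D ^ 2 * ((3 * S + 2) * x ^ 2) * U ^ 2 +
      D ^ 3 * x ^ 4 * U ^ 3 ∈ R := by
  repeat' (first
    | assumption
    | exact Subalgebra.one_mem _
    | exact ofNat_mem _ _
    | apply Subalgebra.add_mem
    | apply Subalgebra.sub_mem
    | apply Subalgebra.mul_mem
    | apply Subalgebra.pow_mem)

end mems

theorem eta_mem : eta x ∈ (emb (B K x a)).range := by
  have hx : cst x ∈ (emb (B K x a)).range := C_mem_range _ (x_mem K x a)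
  have hs : C (sT x) ∈ (emb (B K x a)).range := C_mem_range _ (s_mem K x a)
  have hv : C (vT x) ∈ (emb (B K x a)).range := C_mem_range _ (v_mem K x a)
  have hX : (X : O[X][X]) ∈ (emb (B K x a)).range := X_mem_range _
  exact m0 _ hx hs hv hX

theorem mem_Ed (c : K) : ∀ q ∈ (emb (B K x a)).range,
    ((Ed x 1 (algebraMap K O c)).restrictScalars K) q ∈
      (emb (B K x a)).range := by
  have hx : cst x ∈ (emb (B K x a)).range := C_mem_range _ (x_mem K x a)
  have hs : C (sT x) ∈ (emb (B K x a)).range := C_mem_range _ (s_mem K x a)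
  have hv : C (vT x) ∈ (emb (B K x a)).range := C_mem_range _ (v_mem K x a)
  have hw : C (wT x) ∈ (emb (B K x a)).range := C_mem_range _ (w_mem K x a)
  have hX : (X : O[X][X]) ∈ (emb (B K x a)).range := X_mem_range _
  have he := eta_mem K x a
  have hc : algebraMap K O[X][X] c ∈ (emb (B K x a)).range :=
    Subalgebra.algebraMap_mem _ _
  refine map_range (B K x a) (S := gens x a) rfl _ ?_ ?_
  · rintro b (rfl | rfl | rfl | rfl | rfl)
    · rw [AlgHom.restrictScalars_apply]
      exact (Ed_cst x 1 _ x) ▸ hx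
    · rw [AlgHom.restrictScalars_apply]
      exact (Ed_cst x 1 _ a) ▸ C_mem_range _ (a_mem K x a)
    · rw [AlgHom.restrictScalars_apply, Ed_s, cst_algebraMap]
      exact m1 _ hc hx hs he
    · rw [AlgHom.restrictScalars_apply, Ed_v, cst_algebraMap]
      exact m2 _ hc hx hs hv he
    · rw [AlgHom.restrictScalars_apply, Ed_w, cst_algebraMap]
      exact m3 _ hc hx hs hv hw hX he
  · rw [AlgHom.restrictScalars_apply, Ed_u, cst_algebraMap]
    exact m4 _ hc hX he

theorem Ph_s (ν : O) : Ph ν (C (sT x)) =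
    C (sT x) + cst ν * cst x ^ 2 * X := by
  rw [CsT, map_mul, map_pow, Ph_cst, Ph_tt]
  ring

theorem Ph_v (ν : O) : Ph ν (C (vT x)) =
    C (vT x) + cst ν * ((2 * C (sT x) + 1) * cst x) * X +
      cst ν ^ 2 * cst x ^ 3 * X ^ 2 := by
  rw [CvT, CsT, map_mul, map_mul, map_add, map_mul, map_pow, Ph_cst, Ph_tt, map_one]
  ring

theorem Ph_w (ν : O) : Ph ν (C (wT x)) =
    C (wT x) + cst ν * ((C (sT x) + 1) * (3 * C (sT x) + 1)) * X +
      cst ν ^ 2 * ((3 * C (sT x) + 2) * cst x ^ 2) * X ^ 2 +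
      cst ν ^ 3 * cst x ^ 4 * X ^ 3 := by
  rw [CwT, CsT, map_mul, map_pow, map_add, map_mul, map_pow, Ph_cst, Ph_tt, map_one]
  ring

theorem mem_Ph (c : K) : ∀ q ∈ (emb (B K x a)).range,
    ((Ph (algebraMap K O c)).restrictScalars K) q ∈ (emb (B K x a)).range := by
  have hx : cst x ∈ (emb (B K x a)).range := C_mem_range _ (x_mem K x a)
  have hs : C (sT x) ∈ (emb (B K x a)).range := C_mem_range _ (s_mem K x a)
  have hv : C (vT x) ∈ (emb (B K x a)).range := C_mem_range _ (v_mem K x a)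
  have hw : C (wT x) ∈ (emb (B K x a)).range := C_mem_range _ (w_mem K x a)
  have hX : (X : O[X][X]) ∈ (emb (B K x a)).range := X_mem_range _
  have hc : algebraMap K O[X][X] c ∈ (emb (B K x a)).range :=
    Subalgebra.algebraMap_mem _ _
  refine map_range (B K x a) (S := gens x a) rfl _ ?_ ?_
  · rintro b (rfl | rfl | rfl | rfl | rfl)
    · rw [AlgHom.restrictScalars_apply]
      exact (Ph_cst _ x) ▸ hx
    · rw [AlgHom.restrictScalars_apply]
      exact (Ph_cst _ a) ▸ C_mem_range _ (a_mem K x a)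
    · rw [AlgHom.restrictScalars_apply, Ph_s, cst_algebraMap]
      exact m5 _ hc hx hs hX
    · rw [AlgHom.restrictScalars_apply, Ph_v, cst_algebraMap]
      exact m6 _ hc hx hs hv hX
    · rw [AlgHom.restrictScalars_apply, Ph_w, cst_algebraMap]
      exact m7 _ hc hx hs hw hX
  · rw [AlgHom.restrictScalars_apply, Ph_X]
    exact hX

end Pool.Agent.X288.LN.A
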