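import Pool.Agent.X288.LN.ExA

/-!
# The first surface is of type A, and the images of all its locally nilpotent derivations lie in
one maximal ideal
-/

set_option autoImplicit false

open Polynomial

namespace Pool.Agent.X288.LN.A

variable (K : Type*) [Field K] [CharZero K] {O : Type*} [CommRing O] [Algebra K O] (x a : O)

noncomputable def xB : B K x a := ⟨_, x_mem K x a⟩
noncomputable def aB : B K x a := ⟨_, a_mem K x a⟩
noncomputable def sB : B K x a := ⟨_, s_mem K x a⟩
noncomputable def vB : B K x a := ⟨_, v_mem K x a⟩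
noncomputable def wB : B K x a := ⟨_, w_mem K x a⟩

omit [CharZero K] in
theorem rel : sB K x a * (sB K x a + 1) - xB K x a * vB K x a = 0 := by
  apply Subtype.ext
  show sT x * (sT x + 1) - C x * vT x = 0
  unfold vT sT
  ring

omit [CharZero K] in
theorem exists_Ed (c c' : K) (h : c + c' + c * c' = 0) :
    ∃ ψ : (B K x a)[X] ≃ₐ[K] (B K x a)[X], ∀ r, emb (B K x a) (ψ r) =
      Ed x 1 (algebraMap K O c) (emb (B K x a) r) := by
  have h1 : algebraMap K O c + algebraMap K O c' +
      algebraMap K O c * algebraMap K O c' = 0 := by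
    rw [← map_add, ← map_mul, ← map_add, h, map_zero]
  have h2 : algebraMap K O c' + algebraMap K O c +
      algebraMap K O c' * algebraMap K O c = 0 := by
    rw [← h1]; ring
  exact exists_equiv (B K x a) ((Ed x 1 (algebraMap K O c)).restrictScalars K)
    ((Ed x 1 (algebraMap K O c')).restrictScalars K)
    (fun q => Ed_comp _ _ h1 q) (fun q => Ed_comp _ _ h2 q) (mem_Ed K x a c) (mem_Ed K x a c')

omit [CharZero K] in
theorem exists_Ph (c : K) :
    ∃ ψ : (B K x a)[X] ≃ₐ[K] (B K x a)[X], ∀ r, emb (B K x a) (ψ r) =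
      Ph (algebraMap K O c) (emb (B K x a) r) := by
  have h1 : algebraMap K O c + algebraMap K O (-c) = 0 := by
    rw [← map_add, add_neg_cancel, map_zero]
  have h2 : algebraMap K O (-c) + algebraMap K O c = 0 := by
    rw [add_comm, h1]
  exact exists_equiv (B K x a) ((Ph (algebraMap K O c)).restrictScalars K)
    ((Ph (algebraMap K O (-c))).restrictScalars K)
    (fun q => Ph_comp h1 q) (fun q => Ph_comp h2 q) (mem_Ph K x a c) (mem_Ph K x a (-c))

noncomputable def etaB : (B K x a)[X] := C (vB K x a) + 2 * C (sB K x a) * X + C (xB K x a) * X ^ 2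

omit [CharZero K] in
theorem emb_etaB : emb (B K x a) (etaB K x a) = eta x := by
  unfold etaB eta
  rw [map_add, map_add, map_mul, map_mul, map_mul, map_pow, emb_C, emb_C, emb_C, emb_X, map_ofNat]
  rfl

omit [CharZero K] in
theorem Ed_vB {c : K} {ψ : (B K x a)[X] ≃ₐ[K] (B K x a)[X]} (hψ : ∀ r, emb (B K x a) (ψ r) =
      Ed x 1 (algebraMap K O c) (emb (B K x a) r)) :
    ψ (C (vB K x a)) = C (vB K x a) + algebraMap K _ c * (2 * C (sB K x a) + 1) * etaB K x a +
      algebraMap K _ c ^ 2 * C (xB K x a) * etaB K x a ^ 2 := by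
  apply emb_injective
  rw [hψ, emb_C]
  rw [map_add, map_add, map_mul, map_mul, map_mul, map_mul, map_pow, map_pow, map_add, map_mul,
    map_one, emb_etaB, emb_C, emb_C, emb_C, AlgHom.commutes, map_ofNat]
  exact Ed_v x _

theorem mem_d : (C ((2 * sB K x a + 1) * (2 * sB K x a)) * X : (B K x a)[X]) ∈ HDstar K (B K x a)[X] := by
  obtain ⟨ψ, hψ⟩ := exists_Ed K x a 1 (-1 / 2) (by norm_num)
  obtain ⟨χ, hχ⟩ := exists_Ed K x a (-2) (-2) (by norm_num)
  have hv : (C (vB K x a) : (B K x a)[X]) ∈ HDstar K (B K x a)[X] := C_mem _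
  have h1 := H_sub (HDstar_stable ψ hv) hv
  have h2 := H_sub (HDstar_stable χ hv) hv
  rw [Ed_vB K x a hψ] at h1
  rw [Ed_vB K x a hχ] at h2
  have h3 := H_smul ((1 : K) / 6) (H_sub (H_smul (4 : K) h1) h2)
  apply extract (K := K) ((2 * sB K x a + 1) * vB K x a) ((2 * sB K x a + 1) * (2 * sB K x a))
    ((2 * sB K x a + 1) * xB K x a) 0
  convert h3 using 1
  have e1 : (algebraMap K (B K x a)[X]) 1 = 1 := map_one _
  have e2 : (algebraMap K (B K x a)[X]) (-2) = -2 := by rw [map_neg, map_ofNat]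
  rw [e1, e2]
  have e3 : (4 : K) • (C (vB K x a) + 1 * (2 * C (sB K x a) + 1) * etaB K x a +
      1 ^ 2 * C (xB K x a) * etaB K x a ^ 2 - C (vB K x a)) -
      (C (vB K x a) + -2 * (2 * C (sB K x a) + 1) * etaB K x a +
        (-2) ^ 2 * C (xB K x a) * etaB K x a ^ 2 - C (vB K x a)) =
      (6 : K) • ((2 * C (sB K x a) + 1) * etaB K x a : (B K x a)[X]) := by
    rw [Algebra.smul_def, Algebra.smul_def, map_ofNat, map_ofNat]
    ring
  rw [e3, smul_smul, show (1 : K) / 6 * 6 = 1 by norm_num, one_smul]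
  unfold etaB
  simp only [C_mul, C_add, C_1, C_0, map_ofNat]
  ring

theorem mem_a : (C (xB K x a ^ 2) * X : (B K x a)[X]) ∈ HDstar K (B K x a)[X] := by
  obtain ⟨ψ, hψ⟩ := exists_Ph K x a 1
  have h := HDstar_stable ψ (C_mem (K := K) (sB K x a))
  apply extract (K := K) (sB K x a) (xB K x a ^ 2) 0 0
  convert h using 1
  apply emb_injective
  rw [hψ, emb_C]
  simp only [map_add, map_mul, map_pow, emb_C, emb_X, C_0, zero_mul, add_zero, map_zero, C_pow]
  refine Eq.trans ?_ (Ph_s x _).symm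
  rw [map_one, cst_one, one_mul]
  rfl

theorem mem_b : (C ((2 * sB K x a + 1) * xB K x a) * X : (B K x a)[X]) ∈ HDstar K (B K x a)[X] := by
  obtain ⟨ψ, hψ⟩ := exists_Ph K x a 1
  have h := HDstar_stable ψ (C_mem (K := K) (vB K x a))
  apply extract (K := K) (vB K x a) ((2 * sB K x a + 1) * xB K x a) (xB K x a ^ 3) 0
  convert h using 1
  apply emb_injective
  rw [hψ, emb_C]
  simp only [map_add, map_mul, map_pow, emb_C, emb_X, C_0, zero_mul, add_zero, map_zero, C_pow,
    C_mul, C_add, C_1, map_ofNat, map_one]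
  refine Eq.trans ?_ (Ph_v x _).symm
  rw [cst_one]
  show C (vT x) + (2 * C (sT x) + 1) * cst x * X + cst x ^ 3 * X ^ 2 = _
  ring

theorem mem_c : (C ((sB K x a + 1) * (3 * sB K x a + 1)) * X : (B K x a)[X]) ∈ HDstar K (B K x a)[X] := by
  obtain ⟨ψ, hψ⟩ := exists_Ph K x a 1
  have h := HDstar_stable ψ (C_mem (K := K) (wB K x a))
  apply extract (K := K) (wB K x a) ((sB K x a + 1) * (3 * sB K x a + 1)) ((3 * sB K x a + 2) * xB K x a ^ 2)
    (xB K x a ^ 4)
  convert h using 1
  apply emb_injective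
  rw [hψ, emb_C]
  simp only [map_add, map_mul, map_pow, emb_C, emb_X, C_pow,
    C_mul, C_add, C_1, map_ofNat, map_one]
  refine Eq.trans ?_ (Ph_w x _).symm
  rw [cst_one]
  show C (wT x) + (C (sT x) + 1) * (3 * C (sT x) + 1) * X +
    (3 * C (sT x) + 2) * cst x ^ 2 * X ^ 2 + cst x ^ 4 * X ^ 3 = _
  ring

theorem typeA : HDstar K (B K x a)[X] = ⊤ := by
  let J : Ideal (B K x a) :=
    { carrier := {b | (C b * X : (B K x a)[X]) ∈ HDstar K (B K x a)[X]}
      add_mem' := by
        intro b b' ha hb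
        show (C (b + b') * X : (B K x a)[X]) ∈ HDstar K (B K x a)[X]
        rw [C_add, add_mul]
        exact H_add ha hb
      zero_mem' := by
        show (C (0 : B K x a) * X : (B K x a)[X]) ∈ HDstar K (B K x a)[X]
        rw [C_0, zero_mul]
        exact H_zero
      smul_mem' := by
        intro c b hb
        show (C (c * b) * X : (B K x a)[X]) ∈ HDstar K (B K x a)[X]
        rw [C_mul, mul_assoc]
        exact H_mul (C_mem c) hb }
  have ha : xB K x a ^ 2 ∈ J := mem_a K x a
  have hb : (2 * sB K x a + 1) * xB K x a ∈ J := mem_b K x a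
  have hc : (sB K x a + 1) * (3 * sB K x a + 1) ∈ J := mem_c K x a
  have hd : (2 * sB K x a + 1) * (2 * sB K x a) ∈ J := mem_d K x a
  have h2 : (2 : B K x a) ∈ J := by
    have e : (2 : B K x a) = (2 * sB K x a + 1) * (2 * sB K x a) - 2 * (2 * sB K x a - 1) *
        ((sB K x a + 1) * (3 * sB K x a + 1) - 3 * vB K x a * (2 * (xB K x a * ((sB K x a + 1) * (3 * sB K x a + 1)) -
          3 * vB K x a * xB K x a ^ 2) - (2 * sB K x a + 1) * xB K x a)) := by
      linear_combination (2 * (2 * sB K x a - 1) * (3 - 18 * xB K x a * vB K x a)) * rel K x a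
    rw [e]
    exact J.sub_mem hd (J.mul_mem_left _ (J.sub_mem hc (J.mul_mem_left _
      (J.sub_mem (J.mul_mem_left _ (J.sub_mem (J.mul_mem_left _ hc) (J.mul_mem_left _ ha))) hb))))
  apply top_of_X_mem
  have h3 : (C (2 : B K x a) * X : (B K x a)[X]) ∈ HDstar K (B K x a)[X] := h2
  have h4 := H_smul ((1 : K) / 2) h3
  convert h4 using 1
  rw [Algebra.smul_def, map_ofNat, ← mul_assoc]
  have : algebraMap K (B K x a)[X] (1 / 2) * 2 = 1 := by
    rw [show (2 : (B K x a)[X]) = algebraMap K (B K x a)[X] 2 by rw [map_ofNat], ← map_mul]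
    norm_num
  rw [this, one_mul]

end Pool.Agent.X288.LN.A
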