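import Pool.Agent.X288.LN.ExA2

/-!
# The images of all locally nilpotent derivations of the first surface lie in one maximal ideal
-/

set_option autoImplicit false
set_option linter.unusedSectionVars false

open Polynomial

namespace Pool.Agent.X288.LN.A

variable (K : Type*) [Field K] [CharZero K] {O : Type*} [CommRing O] [Algebra K O] (x a : O)

theorem deriv_w : derivative (wT x) = (sT x + 1) * (3 * sT x + 1) := by
  unfold wT sT
  rw [pow_two (C x ^ 2 * X + 1)]
  simp only [← C_pow, derivative_mul, derivative_C, derivative_X, derivative_add,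
    derivative_one, zero_mul, zero_add, mul_one, one_mul, add_zero]
  rw [C_pow]
  ring

section

variable [IsDomain O] [CharZero O]

theorem der_x {D : Derivation K (B K x a) (B K x a)} (hD : IsLND D) (ha : (1 - x) * a = 1) :
    D (xB K x a) = 0 ∧ D (aB K x a) = 0 := by
  have h1 : (1 - xB K x a) * aB K x a = 1 := by
    apply Subtype.ext
    show (1 - C x) * C a = (1 : O[X])
    rw [← C_1, ← C_sub, ← C_mul, ha]
  have h2 := unit_kill hD h1
  have h3 : aB K x a * (1 - xB K x a) = 1 := by rw [mul_comm, h1]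
  refine ⟨?_, unit_kill hD h3⟩
  rw [map_sub, D.map_one_eq_zero, zero_sub, neg_eq_zero] at h2
  exact h2

theorem der_eq {D : Derivation K (B K x a) (B K x a)} (hD : IsLND D) (hx0 : x ≠ 0)
    (ha : (1 - x) * a = 1) (b : O[X]) (hb : b ∈ B K x a) :
    C x ^ 2 * (D ⟨b, hb⟩ : O[X]) = (D (sB K x a) : O[X]) * derivative b := by
  obtain ⟨hx, haD⟩ := der_x K x a hD ha
  have hC : (C x : O[X]) ≠ 0 := C_ne_zero.2 hx0
  have hv : C x * (D (vB K x a) : O[X]) = (2 * sT x + 1) * (D (sB K x a) : O[X]) := by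
    have h1 : xB K x a * vB K x a = sB K x a * (sB K x a + 1) := (sub_eq_zero.1 (rel K x a)).symm
    have h2 := congrArg D h1
    rw [D.leibniz, D.leibniz, map_add, D.map_one_eq_zero, hx, smul_zero, add_zero, add_zero,
      smul_eq_mul, smul_eq_mul, smul_eq_mul] at h2
    have h3 := congrArg (Subtype.val) h2
    have h4 : C x * (D (vB K x a) : O[X]) = sT x * (D (sB K x a) : O[X]) +
      (sT x + 1) * (D (sB K x a) : O[X]) := h3
    rw [h4]
    ring
  have hw : C x ^ 2 * (D (wB K x a) : O[X]) =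
      (sT x + 1) * (3 * sT x + 1) * (D (sB K x a) : O[X]) := by
    have h1 : xB K x a * wB K x a = (sB K x a + 1) * vB K x a := by
      apply Subtype.ext
      show C x * wT x = (sT x + 1) * vT x
      unfold wT vT
      ring
    have h2 := congrArg D h1
    rw [D.leibniz, D.leibniz, map_add, D.map_one_eq_zero, hx, smul_zero, add_zero, add_zero,
      smul_eq_mul, smul_eq_mul, smul_eq_mul] at h2
    have h3 := congrArg (Subtype.val) h2
    have h4 : C x * (D (wB K x a) : O[X]) = (sT x + 1) * (D (vB K x a) : O[X]) +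
      vT x * (D (sB K x a) : O[X]) := h3
    have h5 : C x * vT x = sT x * (sT x + 1) := by
      unfold vT sT; ring
    linear_combination C x * h4 + (sT x + 1) * hv + (D (sB K x a) : O[X]) * h5
  induction hb using Algebra.adjoin_induction with
  | mem b hb =>
    rcases hb with rfl | rfl | rfl | rfl | rfl
    · have : D ⟨C x, Algebra.subset_adjoin (by simp [gens])⟩ = D (xB K x a) := rfl
      rw [this, hx]; simp
    · have : D ⟨C a, Algebra.subset_adjoin (by simp [gens])⟩ = D (aB K x a) := rfl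
      rw [this, haD]; simp
    · have : D ⟨sT x, Algebra.subset_adjoin (by simp [gens])⟩ = D (sB K x a) := rfl
      rw [this]
      have h6 : derivative (sT x) = C x ^ 2 := by
        unfold sT
        rw [← C_pow, derivative_C_mul, derivative_X, mul_one]
      rw [h6]; ring
    · have : D ⟨vT x, Algebra.subset_adjoin (by simp [gens])⟩ = D (vB K x a) := rfl
      rw [this]
      have h6 : derivative (vT x) = C x * (2 * sT x + 1) := by
        unfold vT sT
        simp only [← C_pow, derivative_mul, derivative_C, derivative_X, derivative_add,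
          derivative_one, zero_mul, zero_add, mul_one, add_zero]
        rw [C_pow]; ring
      rw [h6]
      linear_combination C x * hv
    · have : D ⟨wT x, Algebra.subset_adjoin (by simp [gens])⟩ = D (wB K x a) := rfl
      rw [this]
      have h6 := deriv_w x
      rw [h6]
      linear_combination hw
  | algebraMap r =>
    have h6 : D ⟨algebraMap K O[X] r, Subalgebra.algebraMap_mem _ _⟩ =
      D (algebraMap K (B K x a) r) := rfl
    rw [h6, D.map_algebraMap]
    have h7 : derivative (algebraMap K O[X] r) = 0 := by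
      have : algebraMap K O[X] r = C (algebraMap K O r) := rfl
      rw [this, derivative_C]
    rw [h7]; simp
  | add y z hy hz h1 h2 =>
    have h6 : D ⟨y + z, Subalgebra.add_mem _ hy hz⟩ = D ⟨y, hy⟩ + D ⟨z, hz⟩ := by
      rw [← map_add]; rfl
    rw [h6, derivative_add, mul_add, ← h1, ← h2, ← mul_add]
    rfl
  | mul y z hy hz h1 h2 =>
    have h6 : D ⟨y * z, Subalgebra.mul_mem _ hy hz⟩ =
        ⟨y, hy⟩ * D ⟨z, hz⟩ + ⟨z, hz⟩ * D ⟨y, hy⟩ := by
      have := D.leibniz (⟨y, hy⟩ : B K x a) ⟨z, hz⟩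
      rwa [smul_eq_mul, smul_eq_mul] at this
    have h7 : (D ⟨y * z, Subalgebra.mul_mem _ hy hz⟩ : O[X]) =
        y * (D ⟨z, hz⟩ : O[X]) + z * (D ⟨y, hy⟩ : O[X]) := by rw [h6]; rfl
    rw [h7, derivative_mul]
    linear_combination y * h2 + z * h1

theorem der_const {D : Derivation K (B K x a) (B K x a)} (hD : IsLND D) (hx0 : x ≠ 0)
    (ha : (1 - x) * a = 1) : (D (sB K x a) : O[X]).natDegree = 0 := by
  by_contra hne
  have hpos : 1 ≤ (D (sB K x a) : O[X]).natDegree := Nat.one_le_iff_ne_zero.2 hne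
  have hc0 : (D (sB K x a) : O[X]) ≠ 0 := by
    intro h; rw [h] at hne; simp at hne
  have hC : (C (x ^ 2) : O[X]) ≠ 0 := C_ne_zero.2 (pow_ne_zero 2 hx0)
  have hs : ∀ n : ℕ, 1 ≤ ((⇑D)^[n] (sB K x a) : O[X]).natDegree := by
    intro n
    induction n with
    | zero =>
      show 1 ≤ (sT x).natDegree
      unfold sT
      rw [← C_pow, natDegree_C_mul (pow_ne_zero 2 hx0), natDegree_X]
    | succ n ih =>
      rw [Function.iterate_succ_apply']
      have h1 := der_eq K x a hD hx0 ha ((⇑D)^[n] (sB K x a) : O[X]) (Subtype.property _)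
      have h2 : (D ⟨((⇑D)^[n] (sB K x a) : O[X]), Subtype.property _⟩ : O[X]) =
        (D ((⇑D)^[n] (sB K x a)) : O[X]) := rfl
      rw [h2, ← C_pow] at h1
      have hd : derivative ((⇑D)^[n] (sB K x a) : O[X]) ≠ 0 := by
        intro h
        have := derivative_eq_zero.1 h
        omega
      have h3 := congrArg natDegree h1
      rw [natDegree_C_mul (pow_ne_zero 2 hx0), natDegree_mul hc0 hd] at h3
      omega
  obtain ⟨n, hn⟩ := hD (sB K x a)
  have := hs n
  rw [hn] at this
  simp at this

/-- All locally nilpotent derivations are multiples of `d/dt`. -/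
theorem der_form {D : Derivation K (B K x a) (B K x a)} (hD : IsLND D) (hx0 : x ≠ 0)
    (ha : (1 - x) * a = 1) : ∃ γ : O, ∀ (b : O[X]) (hb : b ∈ B K x a),
      (D ⟨b, hb⟩ : O[X]) = C γ * derivative b := by
  have h0 := eq_C_of_natDegree_eq_zero (der_const K x a hD hx0 ha)
  have hw := der_eq K x a hD hx0 ha (wT x) (w_mem K x a)
  rw [h0] at hw
  have h6 := deriv_w x
  rw [h6] at hw
  have h7 := congrArg (eval 0) hw
  have h8 : eval 0 (sT x) = 0 := by simp [sT]
  simp only [eval_mul, eval_pow, eval_C, eval_add, h8, eval_one, eval_ofNat, mul_zero, zero_add,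
    mul_one] at h7
  refine ⟨eval 0 (D ⟨wT x, w_mem K x a⟩ : O[X]), fun b hb => ?_⟩
  have h9 := der_eq K x a hD hx0 ha b hb
  rw [h0, ← h7, C_mul, C_pow] at h9
  have hC : (C x ^ 2 : O[X]) ≠ 0 := pow_ne_zero 2 (C_ne_zero.2 hx0)
  apply mul_left_cancel₀ hC
  rw [h9]; ring

/-- Evaluation at `s = -1`. -/
noncomputable def rho : O[X] →+* FractionRing O :=
  eval₂RingHom (algebraMap O (FractionRing O)) (-((algebraMap O (FractionRing O) x) ^ 2)⁻¹)

theorem rho_C (o : O) : rho x (C o) = algebraMap O (FractionRing O) o := by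
  simp [rho]

theorem rho_s (hx0 : x ≠ 0) : rho x (sT x) = -1 := by
  have h : algebraMap O (FractionRing O) x ≠ 0 := by
    intro h
    exact hx0 ((IsFractionRing.injective O (FractionRing O)) (by rw [h, map_zero]))
  have hX : rho x X = -((algebraMap O (FractionRing O) x) ^ 2)⁻¹ := by simp [rho]
  unfold sT
  rw [map_mul, map_pow, rho_C, hX]
  field_simp

theorem rho_range (hx0 : x ≠ 0) (b : O[X]) (hb : b ∈ B K x a) :
    ∃ p : O, rho x b = algebraMap O (FractionRing O) p := by
  induction hb using Algebra.adjoin_induction with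
  | mem b hb =>
    rcases hb with rfl | rfl | rfl | rfl | rfl
    · exact ⟨x, rho_C x x⟩
    · exact ⟨a, rho_C x a⟩
    · exact ⟨-1, by rw [rho_s x hx0, map_neg, map_one]⟩
    · refine ⟨0, ?_⟩
      unfold vT
      rw [map_mul, map_add, rho_s x hx0, map_one, neg_add_cancel, mul_zero, map_zero]
    · refine ⟨0, ?_⟩
      unfold wT
      rw [map_mul, map_pow, map_add, rho_s x hx0, map_one, neg_add_cancel, map_zero]
      simp
  | algebraMap r => exact ⟨algebraMap K O r, rho_C x _⟩
  | add y z _ _ h1 h2 =>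
    obtain ⟨p, hp⟩ := h1
    obtain ⟨q, hq⟩ := h2
    exact ⟨p + q, by rw [map_add, map_add, hp, hq]⟩
  | mul y z _ _ h1 h2 =>
    obtain ⟨p, hp⟩ := h1
    obtain ⟨q, hq⟩ := h2
    exact ⟨p * q, by rw [map_mul, map_mul, hp, hq]⟩

/-- The ideal of the point `x = 0, s = -1, v = w = 0`. -/
noncomputable def M (π : O →+* K) (hx0 : x ≠ 0) : Ideal (B K x a) where
  carrier := {b | ∃ p : O, rho x b = algebraMap O (FractionRing O) p ∧ π p = 0}
  add_mem' := by
    rintro b c ⟨p, hp, hp'⟩ ⟨q, hq, hq'⟩
    refine ⟨p + q, ?_, by rw [map_add, hp', hq', add_zero]⟩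
    show rho x ((b : O[X]) + (c : O[X])) = _
    rw [map_add, map_add, hp, hq]
  zero_mem' := ⟨0, by
    show rho x 0 = _
    rw [map_zero, map_zero], map_zero _⟩
  smul_mem' := by
    rintro c b ⟨p, hp, hp'⟩
    obtain ⟨q, hq⟩ := rho_range K x a hx0 c c.2
    refine ⟨q * p, ?_, by rw [map_mul, hp', mul_zero]⟩
    show rho x ((c : O[X]) * (b : O[X])) = _
    rw [map_mul, map_mul, hp, hq]

theorem one_notMem (π : O →+* K) (hx0 : x ≠ 0) : (1 : B K x a) ∉ M K x a π hx0 := by
  rintro ⟨p, hp, hp'⟩
  have h1 : rho x (1 : O[X]) = algebraMap O (FractionRing O) p := hp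
  rw [map_one] at h1
  have h2 : p = 1 := by
    apply IsFractionRing.injective O (FractionRing O)
    rw [← h1, map_one]
  rw [h2, map_one] at hp'
  exact one_ne_zero hp'

theorem der_mem (π : O →+* K) (hπ : π x = 0) {D : Derivation K (B K x a) (B K x a)}
    (hD : IsLND D) (hx0 : x ≠ 0) (ha : (1 - x) * a = 1) (b : O[X]) (hb : b ∈ B K x a) :
    D ⟨b, hb⟩ ∈ M K x a π hx0 := by
  obtain ⟨hx, haD⟩ := der_x K x a hD ha
  obtain ⟨γ, hγ⟩ := der_form K x a hD hx0 ha
  induction hb using Algebra.adjoin_induction with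
  | mem b hb =>
    rcases hb with rfl | rfl | rfl | rfl | rfl
    · have : D ⟨C x, Algebra.subset_adjoin (by simp [gens])⟩ = D (xB K x a) := rfl
      rw [this, hx]; exact Ideal.zero_mem _
    · have : D ⟨C a, Algebra.subset_adjoin (by simp [gens])⟩ = D (aB K x a) := rfl
      rw [this, haD]; exact Ideal.zero_mem _
    · refine ⟨γ * x ^ 2, (congrArg (rho x) (hγ _ (s_mem K x a))).trans ?_,
        by rw [map_mul, map_pow, hπ]; ring⟩
      have h6 : derivative (sT x) = C x ^ 2 := by
        unfold sT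
        rw [← C_pow, derivative_C_mul, derivative_X, mul_one]
      rw [h6, map_mul, map_pow, rho_C, rho_C, map_mul, map_pow]
    · refine ⟨-(γ * x), (congrArg (rho x) (hγ _ (v_mem K x a))).trans ?_,
        by rw [map_neg, map_mul, hπ]; ring⟩
      have h6 : derivative (vT x) = C x * (2 * sT x + 1) := by
        unfold vT sT
        simp only [← C_pow, derivative_mul, derivative_C, derivative_X, derivative_add,
          derivative_one, zero_mul, zero_add, mul_one, add_zero]
        rw [C_pow]; ring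
      rw [h6, map_mul, map_mul, map_add, map_mul, rho_C, rho_C, rho_s x hx0, map_ofNat, map_one,
        map_neg, map_mul]
      ring
    · refine ⟨0, (congrArg (rho x) (hγ _ (w_mem K x a))).trans ?_, map_zero _⟩
      have h6 := deriv_w x
      rw [h6, map_mul, map_mul, map_add, rho_s x hx0, map_one, neg_add_cancel, map_zero]
      ring
  | algebraMap r =>
    have h6 : D ⟨algebraMap K O[X] r, Subalgebra.algebraMap_mem _ _⟩ =
      D (algebraMap K (B K x a) r) := rfl
    rw [h6, D.map_algebraMap]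
    exact Ideal.zero_mem _
  | add y z hy hz h1 h2 =>
    have h6 : D ⟨y + z, Subalgebra.add_mem _ hy hz⟩ = D ⟨y, hy⟩ + D ⟨z, hz⟩ := by
      rw [← map_add]; rfl
    rw [h6]
    exact Ideal.add_mem _ h1 h2
  | mul y z hy hz h1 h2 =>
    have h6 : D ⟨y * z, Subalgebra.mul_mem _ hy hz⟩ =
        ⟨y, hy⟩ * D ⟨z, hz⟩ + ⟨z, hz⟩ * D ⟨y, hy⟩ := by
      have := D.leibniz (⟨y, hy⟩ : B K x a) ⟨z, hz⟩
      rwa [smul_eq_mul, smul_eq_mul] at this
    rw [h6]
    exact Ideal.add_mem _ (Ideal.mul_mem_left _ _ h2) (Ideal.mul_mem_left _ _ h1)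

theorem imageIdeal_ne_top (π : O →+* K) (hπ : π x = 0) (hx0 : x ≠ 0) (ha : (1 - x) * a = 1) :
    imageIdeal K (B K x a) ≠ ⊤ := by
  intro h
  have h1 : imageIdeal K (B K x a) ≤ M K x a π hx0 := by
    unfold imageIdeal
    rw [Ideal.span_le]
    rintro _ ⟨D, b, hD, rfl⟩
    exact der_mem K x a π hπ hD hx0 ha b b.2
  rw [h] at h1
  exact one_notMem K x a π hx0 (h1 trivial)

end

end Pool.Agent.X288.LN.A
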