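import Pool.Agent.X288.LN.Auto

/-!
# The second surface
-/

set_option autoImplicit false
set_option linter.unusedSectionVars false

open Polynomial

namespace Pool.Agent.X288.LN.B

variable (K : Type*) [Field K] {O : Type*} [CommRing O] [Algebra K O] (p a : O)

noncomputable def sT : O[X] := C p ^ 3 * X

noncomputable def vT : O[X] := C p * X * (sT p + 1)

noncomputable def yT : O[X] := X ^ 2 * (sT p + 1) ^ 3

def gens : Set O[X] := {C p ^ 2, C a, sT p, vT p, yT p}

/-- The coordinate ring: the subalgebra of `O[r]` generated by `x = p²`, `a`, `s = p³ r`,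
`v = p r (s + 1)` and `y = r² (s + 1)³`. -/
noncomputable def R : Subalgebra K O[X] := Algebra.adjoin K (gens p a)

theorem x_mem : C p ^ 2 ∈ R K p a := Algebra.subset_adjoin (by simp [gens])
theorem a_mem : C a ∈ R K p a := Algebra.subset_adjoin (by simp [gens])
theorem s_mem : sT p ∈ R K p a := Algebra.subset_adjoin (by simp [gens])
theorem v_mem : vT p ∈ R K p a := Algebra.subset_adjoin (by simp [gens])
theorem y_mem : yT p ∈ R K p a := Algebra.subset_adjoin (by simp [gens])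

theorem CxT : (C (C p ^ 2) : O[X][X]) = cst p ^ 2 := by
  simp [cst]

theorem CsT : (C (sT p) : O[X][X]) = cst p ^ 3 * tt := by
  simp [sT, cst, tt]

theorem CvT : (C (vT p) : O[X][X]) =
    cst p * tt * (cst p ^ 3 * tt + 1) := by
  simp [vT, sT, cst, tt]

theorem CyT : (C (yT p) : O[X][X]) = tt ^ 2 * (cst p ^ 3 * tt + 1) ^ 3 := by
  simp [yT, sT, cst, tt]

/-- `η` -/
noncomputable def eta : O[X][X] :=
  C (vT p) + 2 * C (sT p) * X + cst p ^ 2 * X ^ 2

theorem eta_eq : cst p * hh p p = eta p := by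
  unfold eta hh zz
  rw [CvT, CsT]
  ring

theorem Ed_s (δ : O) : Ed p p δ (C (sT p)) =
    C (sT p) + cst δ * cst p ^ 2 * eta p := by
  rw [← eta_eq, CsT, map_mul, map_pow, Ed_cst, Ed_tt]
  ring

theorem Ed_v (δ : O) : Ed p p δ (C (vT p)) =
    C (vT p) + cst δ * (2 * C (sT p) + 1) * eta p + cst δ ^ 2 * cst p ^ 2 * eta p ^ 2 := by
  rw [← eta_eq, CvT, CsT, map_mul, map_mul, map_add, map_mul, map_pow, Ed_cst, Ed_tt, map_one]
  ring

theorem Ed_y (δ : O) : Ed p p δ (C (yT p)) =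
    C (yT p) +
    cst δ * (2 * (C (yT p) + C (vT p) * (X * (1 + C (sT p)) + C (vT p)) ^ 2) +
      3 * C (vT p) ^ 2 * eta p) +
    cst δ ^ 2 * (C (yT p) + (X * (1 + C (sT p)) + C (vT p)) ^ 2 *
        (C (vT p) + eta p * (1 + C (sT p))) +
      6 * C (vT p) * (1 + C (sT p)) * eta p ^ 2 + 3 * C (sT p) * C (vT p) * eta p ^ 2) +
    cst δ ^ 3 * (3 * (1 + C (sT p)) ^ 2 + 6 * C (sT p) * (1 + C (sT p)) + C (sT p) ^ 2) *
      eta p ^ 3 +
    cst δ ^ 4 * cst p ^ 2 * (3 * (1 + C (sT p)) + 2 * C (sT p)) * eta p ^ 4 +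
    cst δ ^ 5 * (cst p ^ 2) ^ 2 * eta p ^ 5 := by
  rw [← eta_eq, CyT, CvT, CsT, map_mul, map_pow, map_pow, map_add, map_mul, map_pow, Ed_cst,
    Ed_tt, map_one]
  unfold hh zz
  ring

theorem Ed_u (δ : O) : Ed p p δ X = X - cst δ * eta p := by
  rw [Ed_X, ← eta_eq]
  ring

theorem cst_algebraMap (c : K) : (cst (algebraMap K O c)) = algebraMap K O[X][X] c := rfl

section mems

variable {K} {Q : Type*} [CommRing Q] [Algebra K Q] (R : Subalgebra K Q) {D x S V Y U E : Q}

theorem m0 (hx : x ∈ R) (hS : S ∈ R) (hV : V ∈ R) (hU : U ∈ R) :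
    V + 2 * S * U + x * U ^ 2 ∈ R := by
  repeat' (first
    | assumption
    | exact Subalgebra.one_mem _
    | exact ofNat_mem _ _
    | apply Subalgebra.add_mem
    | apply Subalgebra.sub_mem
    | apply Subalgebra.mul_mem
    | apply Subalgebra.pow_mem)

theorem m1 (hD : D ∈ R) (hx : x ∈ R) (hS : S ∈ R) (hE : E ∈ R) : S + D * x * E ∈ R := by
  repeat' (first
    | assumption
    | apply Subalgebra.add_mem
    | apply Subalgebra.mul_mem)

theorem m2 (hD : D ∈ R) (hx : x ∈ R) (hS : S ∈ R) (hV : V ∈ R) (hE : E ∈ R) :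
    V + D * (2 * S + 1) * E + D ^ 2 * x * E ^ 2 ∈ R := by
  repeat' (first
    | assumption
    | exact Subalgebra.one_mem _
    | exact ofNat_mem _ _
    | apply Subalgebra.add_mem
    | apply Subalgebra.sub_mem
    | apply Subalgebra.mul_mem
    | apply Subalgebra.pow_mem)

theorem m3 (hD : D ∈ R) (hx : x ∈ R) (hS : S ∈ R) (hV : V ∈ R) (hY : Y ∈ R) (hU : U ∈ R)
    (hE : E ∈ R) :
    Y + D * (2 * (Y + V * (U * (1 + S) + V) ^ 2) + 3 * V ^ 2 * E) +
      D ^ 2 * (Y + (U * (1 + S) + V) ^ 2 * (V + E * (1 + S)) + 6 * V * (1 + S) * E ^ 2 +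
        3 * S * V * E ^ 2) +
      D ^ 3 * (3 * (1 + S) ^ 2 + 6 * S * (1 + S) + S ^ 2) * E ^ 3 +
      D ^ 4 * x * (3 * (1 + S) + 2 * S) * E ^ 4 + D ^ 5 * x ^ 2 * E ^ 5 ∈ R := by
  repeat' (first
    | assumption
    | exact Subalgebra.one_mem _
    | exact ofNat_mem _ _
    | apply Subalgebra.add_mem
    | apply Subalgebra.sub_mem
    | apply Subalgebra.mul_mem
    | apply Subalgebra.pow_mem)

theorem m4 (hD : D ∈ R) (hU : U ∈ R) (hE : E ∈ R) : U - D * E ∈ R :=
  Subalgebra.sub_mem _ hU (Subalgebra.mul_mem _ hD hE)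

end mems

theorem eta_mem : eta p ∈ (emb (R K p a)).range := by
  have hx : cst p ^ 2 ∈ (emb (R K p a)).range := CxT p ▸ C_mem_range _ (x_mem K p a)
  have hs : C (sT p) ∈ (emb (R K p a)).range := C_mem_range _ (s_mem K p a)
  have hv : C (vT p) ∈ (emb (R K p a)).range := C_mem_range _ (v_mem K p a)
  have hX : (X : O[X][X]) ∈ (emb (R K p a)).range := X_mem_range _
  exact m0 _ hx hs hv hX

theorem mem_Ed (c : K) : ∀ q ∈ (emb (R K p a)).range,
    ((Ed p p (algebraMap K O c)).restrictScalars K) q ∈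
      (emb (R K p a)).range := by
  have hx : cst p ^ 2 ∈ (emb (R K p a)).range := CxT p ▸ C_mem_range _ (x_mem K p a)
  have hs : C (sT p) ∈ (emb (R K p a)).range := C_mem_range _ (s_mem K p a)
  have hv : C (vT p) ∈ (emb (R K p a)).range := C_mem_range _ (v_mem K p a)
  have hy : C (yT p) ∈ (emb (R K p a)).range := C_mem_range _ (y_mem K p a)
  have hX : (X : O[X][X]) ∈ (emb (R K p a)).range := X_mem_range _
  have he := eta_mem K p a
  have hc : algebraMap K O[X][X] c ∈ (emb (R K p a)).range :=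
    Subalgebra.algebraMap_mem _ _
  refine map_range (R K p a) (S := gens p a) rfl _ ?_ ?_
  · rintro b (rfl | rfl | rfl | rfl | rfl)
    · rw [AlgHom.restrictScalars_apply, CxT, map_pow, Ed_cst]
      exact hx
    · rw [AlgHom.restrictScalars_apply]
      exact (Ed_cst p p _ a) ▸ C_mem_range _ (a_mem K p a)
    · rw [AlgHom.restrictScalars_apply, Ed_s, cst_algebraMap]
      exact m1 _ hc hx hs he
    · rw [AlgHom.restrictScalars_apply, Ed_v, cst_algebraMap]
      exact m2 _ hc hx hs hv he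
    · rw [AlgHom.restrictScalars_apply, Ed_y, cst_algebraMap]
      exact m3 _ hc hx hs hv hy hX he
  · rw [AlgHom.restrictScalars_apply, Ed_u, cst_algebraMap]
    exact m4 _ hc hX he

noncomputable def xB : R K p a := ⟨_, x_mem K p a⟩
noncomputable def aB : R K p a := ⟨_, a_mem K p a⟩
noncomputable def sB : R K p a := ⟨_, s_mem K p a⟩
noncomputable def vB : R K p a := ⟨_, v_mem K p a⟩
noncomputable def yB : R K p a := ⟨_, y_mem K p a⟩

theorem coe_xB : ((xB K p a : R K p a) : O[X]) = C p ^ 2 := rfl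
theorem coe_aB : ((aB K p a : R K p a) : O[X]) = C a := rfl
theorem coe_sB : ((sB K p a : R K p a) : O[X]) = sT p := rfl
theorem coe_vB : ((vB K p a : R K p a) : O[X]) = vT p := rfl
theorem coe_yB : ((yB K p a : R K p a) : O[X]) = yT p := rfl

theorem exists_Ed (c c' : K) (h : c + c' + c * c' = 0) :
    ∃ ψ : (R K p a)[X] ≃ₐ[K] (R K p a)[X], ∀ r, emb (R K p a) (ψ r) =
      Ed p p (algebraMap K O c) (emb (R K p a) r) := by
  have h1 : algebraMap K O c + algebraMap K O c' +
      algebraMap K O c * algebraMap K O c' = 0 := by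
    rw [← map_add, ← map_mul, ← map_add, h, map_zero]
  have h2 : algebraMap K O c' + algebraMap K O c +
      algebraMap K O c' * algebraMap K O c = 0 := by
    rw [← h1]; ring
  exact exists_equiv (R K p a) ((Ed p p (algebraMap K O c)).restrictScalars K)
    ((Ed p p (algebraMap K O c')).restrictScalars K)
    (fun q => Ed_comp _ _ h1 q) (fun q => Ed_comp _ _ h2 q) (mem_Ed K p a c) (mem_Ed K p a c')

noncomputable def etaB : (R K p a)[X] :=
  C (vB K p a) + 2 * C (sB K p a) * X + C (xB K p a) * X ^ 2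

theorem emb_etaB : emb (R K p a) (etaB K p a) = eta p := by
  unfold etaB eta
  rw [map_add, map_add, map_mul, map_mul, map_mul, map_pow, emb_C, emb_C, emb_C, emb_X, map_ofNat,
    coe_vB, coe_sB, coe_xB, CxT]

theorem Ed_vB {c : K} {ψ : (R K p a)[X] ≃ₐ[K] (R K p a)[X]} (hψ : ∀ r, emb (R K p a) (ψ r) =
      Ed p p (algebraMap K O c) (emb (R K p a) r)) :
    ψ (C (vB K p a)) = C (vB K p a) +
      algebraMap K _ c * (2 * C (sB K p a) + 1) * etaB K p a +
      algebraMap K _ c ^ 2 * C (xB K p a) * etaB K p a ^ 2 := by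
  apply emb_injective
  rw [hψ, emb_C]
  rw [map_add, map_add, map_mul, map_mul, map_mul, map_mul, map_pow, map_pow, map_add, map_mul,
    map_one, emb_etaB, emb_C, emb_C, emb_C, AlgHom.commutes, map_ofNat, coe_vB, coe_sB,
    coe_xB, CxT, ← cst_algebraMap]
  exact Ed_v p (algebraMap K O c)

theorem mem_d [CharZero K] :
    (C ((2 * sB K p a + 1) * (2 * sB K p a)) * X : (R K p a)[X]) ∈ HDstar K (R K p a)[X] := by
  obtain ⟨ψ, hψ⟩ := exists_Ed K p a 1 (-1 / 2) (by norm_num)
  obtain ⟨χ, hχ⟩ := exists_Ed K p a (-2) (-2) (by norm_num)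
  have hv : (C (vB K p a) : (R K p a)[X]) ∈ HDstar K (R K p a)[X] := C_mem _
  have h1 := H_sub (HDstar_stable ψ hv) hv
  have h2 := H_sub (HDstar_stable χ hv) hv
  rw [Ed_vB K p a hψ] at h1
  rw [Ed_vB K p a hχ] at h2
  have h3 := H_smul ((1 : K) / 6) (H_sub (H_smul (4 : K) h1) h2)
  apply extract (K := K) ((2 * sB K p a + 1) * vB K p a) ((2 * sB K p a + 1) * (2 * sB K p a))
    ((2 * sB K p a + 1) * xB K p a) 0
  convert h3 using 1
  have e1 : (algebraMap K (R K p a)[X]) 1 = 1 := map_one _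
  have e2 : (algebraMap K (R K p a)[X]) (-2) = -2 := by rw [map_neg, map_ofNat]
  rw [e1, e2]
  have e3 : (4 : K) • (C (vB K p a) + 1 * (2 * C (sB K p a) + 1) * etaB K p a +
      1 ^ 2 * C (xB K p a) * etaB K p a ^ 2 - C (vB K p a)) -
      (C (vB K p a) + -2 * (2 * C (sB K p a) + 1) * etaB K p a +
        (-2) ^ 2 * C (xB K p a) * etaB K p a ^ 2 - C (vB K p a)) =
      (6 : K) • ((2 * C (sB K p a) + 1) * etaB K p a : (R K p a)[X]) := by
    rw [Algebra.smul_def, Algebra.smul_def, map_ofNat, map_ofNat]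
    ring
  rw [e3, smul_smul, show (1 : K) / 6 * 6 = 1 by norm_num, one_smul]
  unfold etaB
  simp only [C_mul, C_add, C_1, C_0, map_ofNat]
  ring

end Pool.Agent.X288.LN.B
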