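import Pool.Agent.X288.LN.ExB

/-!
# Locally nilpotent derivations of the second surface
-/

set_option autoImplicit false
set_option linter.unusedSectionVars false

open Polynomial

namespace Pool.Agent.X288.LN.B

variable (K : Type*) [Field K] [CharZero K] {O : Type*} [CommRing O] [Algebra K O] (p a : O)

theorem deriv_s : derivative (sT p) = C p ^ 3 := by
  unfold sT
  rw [← C_pow, derivative_C_mul, derivative_X, mul_one]

theorem deriv_v : derivative (vT p) = C p * (2 * sT p + 1) := by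
  unfold vT
  rw [derivative_mul, derivative_mul, derivative_C, derivative_X, derivative_add, derivative_one,
    deriv_s]
  unfold sT
  ring

theorem deriv_y : derivative (yT p) = X * ((sT p + 1) ^ 2 * (5 * sT p + 2)) := by
  unfold yT
  rw [pow_two X, show (sT p + 1) ^ 3 = (sT p + 1) * (sT p + 1) * (sT p + 1) by ring,
    derivative_mul, derivative_mul, derivative_mul, derivative_mul, derivative_X, derivative_add,
    derivative_one, deriv_s]
  unfold sT
  ring

section

variable [IsDomain O] [CharZero O]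

theorem der_x {D : Derivation K (R K p a) (R K p a)} (hD : IsLND D) (ha : (1 - p ^ 2) * a = 1) :
    D (xB K p a) = 0 ∧ D (aB K p a) = 0 := by
  have h1 : (1 - xB K p a) * aB K p a = 1 := by
    apply Subtype.ext
    show (1 - C p ^ 2) * C a = (1 : O[X])
    rw [← C_1, ← C_pow, ← C_sub, ← C_mul, ha]
  have h2 := unit_kill hD h1
  have h3 : aB K p a * (1 - xB K p a) = 1 := by rw [mul_comm, h1]
  refine ⟨?_, unit_kill hD h3⟩
  rw [map_sub, D.map_one_eq_zero, zero_sub, neg_eq_zero] at h2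
  exact h2

theorem rel_v : xB K p a * vB K p a = sB K p a * (sB K p a + 1) := by
  apply Subtype.ext
  show C p ^ 2 * vT p = sT p * (sT p + 1)
  unfold vT
  rw [show sT p * (sT p + 1) = (C p ^ 3 * X) * (sT p + 1) from rfl]
  ring

theorem rel_y : xB K p a * yB K p a = (sB K p a + 1) * vB K p a * vB K p a := by
  apply Subtype.ext
  show C p ^ 2 * yT p = (sT p + 1) * vT p * vT p
  unfold yT vT
  ring

theorem der_eq {D : Derivation K (R K p a) (R K p a)} (hD : IsLND D) (hp0 : p ≠ 0)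
    (ha : (1 - p ^ 2) * a = 1) (b : O[X]) (hb : b ∈ R K p a) :
    C p ^ 3 * (D ⟨b, hb⟩ : O[X]) = (D (sB K p a) : O[X]) * derivative b := by
  obtain ⟨hx, haD⟩ := der_x K p a hD ha
  have hC : (C p : O[X]) ≠ 0 := C_ne_zero.2 hp0
  have hv : C p ^ 2 * (D (vB K p a) : O[X]) = (2 * sT p + 1) * (D (sB K p a) : O[X]) := by
    have h2 := congrArg D (rel_v K p a)
    rw [D.leibniz, D.leibniz, map_add, D.map_one_eq_zero, hx, smul_zero, add_zero, add_zero,
      smul_eq_mul, smul_eq_mul, smul_eq_mul] at h2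
    have h3 := congrArg (Subtype.val) h2
    have h4 : C p ^ 2 * (D (vB K p a) : O[X]) = sT p * (D (sB K p a) : O[X]) +
      (sT p + 1) * (D (sB K p a) : O[X]) := h3
    rw [h4]
    ring
  have hy : C p ^ 3 * (D (yB K p a) : O[X]) =
      (D (sB K p a) : O[X]) * (X * ((sT p + 1) ^ 2 * (5 * sT p + 2))) := by
    have h2 := congrArg D (rel_y K p a)
    rw [D.leibniz, D.leibniz, D.leibniz, map_add, D.map_one_eq_zero, hx, smul_zero, add_zero,
      add_zero, smul_eq_mul, smul_eq_mul, smul_eq_mul, smul_eq_mul, smul_eq_mul] at h2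
    have h3 := congrArg (Subtype.val) h2
    have h4 : C p ^ 2 * (D (yB K p a) : O[X]) =
      (sT p + 1) * vT p * (D (vB K p a) : O[X]) +
      vT p * ((sT p + 1) * (D (vB K p a) : O[X]) + vT p * (D (sB K p a) : O[X])) := h3
    have h5 : vT p = C p * X * (sT p + 1) := rfl
    have h6 : C p ^ 3 * X = sT p := rfl
    apply mul_left_cancel₀ hC
    linear_combination C p ^ 2 * h4 + 2 * (sT p + 1) * vT p * hv +
      (D (sB K p a) : O[X]) * (C p ^ 2 * (vT p + C p * X * (sT p + 1)) +
        2 * (sT p + 1) * (2 * sT p + 1)) * h5 +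
      (D (sB K p a) : O[X]) * (sT p + 1) ^ 2 * (C p * X) * h6
  induction hb using Algebra.adjoin_induction with
  | mem b hb =>
    rcases hb with rfl | rfl | rfl | rfl | rfl
    · have : D ⟨C p ^ 2, Algebra.subset_adjoin (by simp [gens])⟩ = D (xB K p a) := rfl
      rw [this, hx, ← C_pow]; simp
    · have : D ⟨C a, Algebra.subset_adjoin (by simp [gens])⟩ = D (aB K p a) := rfl
      rw [this, haD]; simp
    · have : D ⟨sT p, Algebra.subset_adjoin (by simp [gens])⟩ = D (sB K p a) := rfl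
      rw [this, deriv_s]; ring
    · have : D ⟨vT p, Algebra.subset_adjoin (by simp [gens])⟩ = D (vB K p a) := rfl
      rw [this, deriv_v]
      linear_combination C p * hv
    · have : D ⟨yT p, Algebra.subset_adjoin (by simp [gens])⟩ = D (yB K p a) := rfl
      rw [this, deriv_y]
      exact hy
  | algebraMap r =>
    have h6 : D ⟨algebraMap K O[X] r, Subalgebra.algebraMap_mem _ _⟩ =
      D (algebraMap K (R K p a) r) := rfl
    rw [h6, D.map_algebraMap]
    have h7 : derivative (algebraMap K O[X] r) = 0 := by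
      have : algebraMap K O[X] r = C (algebraMap K O r) := rfl
      rw [this, derivative_C]
    rw [h7]; simp
  | add y z hy hz h1 h2 =>
    have h6 : D ⟨y + z, Subalgebra.add_mem _ hy hz⟩ = D ⟨y, hy⟩ + D ⟨z, hz⟩ := by
      rw [← map_add]; rfl
    rw [h6, derivative_add, mul_add, ← h1, ← h2, ← mul_add]
    rfl
  | mul y z hy hz h1 h2 =>
    have h6 : D ⟨y * z, Subalgebra.mul_mem _ hy hz⟩ =
        ⟨y, hy⟩ * D ⟨z, hz⟩ + ⟨z, hz⟩ * D ⟨y, hy⟩ := by
      have := D.leibniz (⟨y, hy⟩ : R K p a) ⟨z, hz⟩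
      rwa [smul_eq_mul, smul_eq_mul] at this
    have h7 : (D ⟨y * z, Subalgebra.mul_mem _ hy hz⟩ : O[X]) =
        y * (D ⟨z, hz⟩ : O[X]) + z * (D ⟨y, hy⟩ : O[X]) := by rw [h6]; rfl
    rw [h7, derivative_mul]
    linear_combination y * h2 + z * h1

theorem der_const {D : Derivation K (R K p a) (R K p a)} (hD : IsLND D) (hp0 : p ≠ 0)
    (ha : (1 - p ^ 2) * a = 1) : (D (sB K p a) : O[X]).natDegree = 0 := by
  by_contra hne
  have hpos : 1 ≤ (D (sB K p a) : O[X]).natDegree := Nat.one_le_iff_ne_zero.2 hne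
  have hc0 : (D (sB K p a) : O[X]) ≠ 0 := by
    intro h; rw [h] at hne; simp at hne
  have hs : ∀ n : ℕ, 1 ≤ ((⇑D)^[n] (sB K p a) : O[X]).natDegree := by
    intro n
    induction n with
    | zero =>
      show 1 ≤ (sT p).natDegree
      unfold sT
      rw [← C_pow, natDegree_C_mul (pow_ne_zero 3 hp0), natDegree_X]
    | succ n ih =>
      rw [Function.iterate_succ_apply']
      have h1 := der_eq K p a hD hp0 ha ((⇑D)^[n] (sB K p a) : O[X]) (Subtype.property _)
      have h2 : (D ⟨((⇑D)^[n] (sB K p a) : O[X]), Subtype.property _⟩ : O[X]) =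
        (D ((⇑D)^[n] (sB K p a)) : O[X]) := rfl
      rw [h2, ← C_pow] at h1
      have hd : derivative ((⇑D)^[n] (sB K p a) : O[X]) ≠ 0 := by
        intro h
        have := derivative_eq_zero.1 h
        omega
      have h3 := congrArg natDegree h1
      rw [natDegree_C_mul (pow_ne_zero 3 hp0), natDegree_mul hc0 hd] at h3
      omega
  obtain ⟨n, hn⟩ := hD (sB K p a)
  have := hs n
  rw [hn] at this
  simp at this

/-- All locally nilpotent derivations are multiples of `d/dr`. -/
theorem der_form {D : Derivation K (R K p a) (R K p a)} (hD : IsLND D) (hp0 : p ≠ 0)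
    (ha : (1 - p ^ 2) * a = 1) : ∃ γ : O, ∀ (b : O[X]) (hb : b ∈ R K p a),
      (D ⟨b, hb⟩ : O[X]) = C γ * derivative b := by
  have h0 := eq_C_of_natDegree_eq_zero (der_const K p a hD hp0 ha)
  have hy := der_eq K p a hD hp0 ha (yT p) (y_mem K p a)
  rw [h0, deriv_y] at hy
  have h7 := congrArg (fun q => coeff q 1) hy
  have h8 : (sT p).coeff 0 = 0 := by simp [sT]
  have h9 : ((sT p + 1) ^ 2 * (5 * sT p + 2)).coeff 0 = 2 := by
    rw [coeff_zero_eq_eval_zero] at h8 ⊢
    simp [h8]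
  simp only [← C_pow, coeff_C_mul] at h7
  rw [coeff_X_mul, h9] at h7
  -- `2` is invertible
  obtain ⟨e, he⟩ : ∃ e : O, 2 * e = 1 := by
    refine ⟨algebraMap K O (1 / 2), ?_⟩
    rw [show (2 : O) = algebraMap K O 2 by rw [map_ofNat], ← map_mul]
    norm_num
  refine ⟨(D ⟨yT p, y_mem K p a⟩ : O[X]).coeff 1 * e, fun b hb => ?_⟩
  have h10 := der_eq K p a hD hp0 ha b hb
  have h11 : (D (sB K p a) : O[X]).coeff 0 =
      p ^ 3 * ((D ⟨yT p, y_mem K p a⟩ : O[X]).coeff 1 * e) := by
    linear_combination (-(D (sB K p a) : O[X]).coeff 0) * he - e * h7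
  rw [h0, h11, C_mul, C_pow] at h10
  have hC : (C p ^ 3 : O[X]) ≠ 0 := pow_ne_zero 3 (C_ne_zero.2 hp0)
  apply mul_left_cancel₀ hC
  rw [h10]; ring

/-- Evaluation at `s = -1`. -/
noncomputable def rho : O[X] →+* FractionRing O :=
  eval₂RingHom (algebraMap O (FractionRing O)) (-((algebraMap O (FractionRing O) p) ^ 3)⁻¹)

theorem rho_C (o : O) : rho p (C o) = algebraMap O (FractionRing O) o := by
  simp [rho]

theorem rho_s (hp0 : p ≠ 0) : rho p (sT p) = -1 := by
  have h : algebraMap O (FractionRing O) p ≠ 0 := by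
    intro h
    exact hp0 ((IsFractionRing.injective O (FractionRing O)) (by rw [h, map_zero]))
  have hX : rho p X = -((algebraMap O (FractionRing O) p) ^ 3)⁻¹ := by simp [rho]
  unfold sT
  rw [map_mul, map_pow, rho_C, hX]
  field_simp

theorem rho_range (hp0 : p ≠ 0) (b : O[X]) (hb : b ∈ R K p a) :
    ∃ q : O, rho p b = algebraMap O (FractionRing O) q := by
  induction hb using Algebra.adjoin_induction with
  | mem b hb =>
    rcases hb with rfl | rfl | rfl | rfl | rfl
    · exact ⟨p ^ 2, by rw [← C_pow, rho_C]⟩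
    · exact ⟨a, rho_C p a⟩
    · exact ⟨-1, by rw [rho_s p hp0, map_neg, map_one]⟩
    · refine ⟨0, ?_⟩
      unfold vT
      rw [map_mul, map_add, rho_s p hp0, map_one, neg_add_cancel, mul_zero, map_zero]
    · refine ⟨0, ?_⟩
      unfold yT
      rw [map_mul, map_pow _ (sT p + 1), map_add, rho_s p hp0, map_one, neg_add_cancel, map_zero]
      simp
  | algebraMap r => exact ⟨algebraMap K O r, rho_C p _⟩
  | add y z _ _ h1 h2 =>
    obtain ⟨q, hq⟩ := h1
    obtain ⟨q', hq'⟩ := h2
    exact ⟨q + q', by rw [map_add, map_add, hq, hq']⟩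
  | mul y z _ _ h1 h2 =>
    obtain ⟨q, hq⟩ := h1
    obtain ⟨q', hq'⟩ := h2
    exact ⟨q * q', by rw [map_mul, map_mul, hq, hq']⟩

/-- The ideal of the point `x = 0, s = -1, v = y = 0`. -/
noncomputable def M (π : O →+* K) (hp0 : p ≠ 0) : Ideal (R K p a) where
  carrier := {b | ∃ q : O, rho p b = algebraMap O (FractionRing O) q ∧ π q = 0}
  add_mem' := by
    rintro b c ⟨q, hq, hq'⟩ ⟨t, ht, ht'⟩
    refine ⟨q + t, ?_, by rw [map_add, hq', ht', add_zero]⟩
    show rho p ((b : O[X]) + (c : O[X])) = _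
    rw [map_add, map_add, hq, ht]
  zero_mem' := ⟨0, by
    show rho p 0 = _
    rw [map_zero, map_zero], map_zero _⟩
  smul_mem' := by
    rintro c b ⟨q, hq, hq'⟩
    obtain ⟨t, ht⟩ := rho_range K p a hp0 c c.2
    refine ⟨t * q, ?_, by rw [map_mul, hq', mul_zero]⟩
    show rho p ((c : O[X]) * (b : O[X])) = _
    rw [map_mul, map_mul, hq, ht]

theorem f_notMem (π : O →+* K) (hp0 : p ≠ 0) :
    (2 * sB K p a + 1) * (2 * sB K p a) ∉ M K p a π hp0 := by
  rintro ⟨q, hq, hq'⟩
  have h1 : rho p ((2 * sT p + 1) * (2 * sT p)) = algebraMap O (FractionRing O) q := hq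
  rw [map_mul, map_add, map_mul, rho_s p hp0, map_ofNat, map_one] at h1
  have h2 : q = 2 := by
    apply IsFractionRing.injective O (FractionRing O)
    rw [← h1, map_ofNat]
    norm_num
  rw [h2, map_ofNat] at hq'
  exact two_ne_zero hq'

theorem der_mem (π : O →+* K) (hπ : π p = 0) {D : Derivation K (R K p a) (R K p a)}
    (hD : IsLND D) (hp0 : p ≠ 0) (ha : (1 - p ^ 2) * a = 1) (b : O[X]) (hb : b ∈ R K p a) :
    D ⟨b, hb⟩ ∈ M K p a π hp0 := by
  obtain ⟨hx, haD⟩ := der_x K p a hD ha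
  obtain ⟨γ, hγ⟩ := der_form K p a hD hp0 ha
  induction hb using Algebra.adjoin_induction with
  | mem b hb =>
    rcases hb with rfl | rfl | rfl | rfl | rfl
    · have : D ⟨C p ^ 2, Algebra.subset_adjoin (by simp [gens])⟩ = D (xB K p a) := rfl
      rw [this, hx]; exact Ideal.zero_mem _
    · have : D ⟨C a, Algebra.subset_adjoin (by simp [gens])⟩ = D (aB K p a) := rfl
      rw [this, haD]; exact Ideal.zero_mem _
    · refine ⟨γ * p ^ 3, (congrArg (rho p) (hγ _ (s_mem K p a))).trans ?_,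
        by rw [map_mul, map_pow, hπ]; ring⟩
      rw [deriv_s, map_mul, map_pow, rho_C, rho_C, map_mul, map_pow]
    · refine ⟨-(γ * p), (congrArg (rho p) (hγ _ (v_mem K p a))).trans ?_,
        by rw [map_neg, map_mul, hπ]; ring⟩
      rw [deriv_v, map_mul, map_mul, map_add, map_mul, rho_C, rho_C, rho_s p hp0, map_ofNat,
        map_one, map_neg, map_mul]
      ring
    · refine ⟨0, (congrArg (rho p) (hγ _ (y_mem K p a))).trans ?_, map_zero _⟩
      rw [deriv_y, map_mul, map_mul, map_mul, map_pow, map_add, rho_s p hp0, map_one,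
        neg_add_cancel, map_zero]
      ring
  | algebraMap r =>
    have h6 : D ⟨algebraMap K O[X] r, Subalgebra.algebraMap_mem _ _⟩ =
      D (algebraMap K (R K p a) r) := rfl
    rw [h6, D.map_algebraMap]
    exact Ideal.zero_mem _
  | add y z hy hz h1 h2 =>
    have h6 : D ⟨y + z, Subalgebra.add_mem _ hy hz⟩ = D ⟨y, hy⟩ + D ⟨z, hz⟩ := by
      rw [← map_add]; rfl
    rw [h6]
    exact Ideal.add_mem _ h1 h2
  | mul y z hy hz h1 h2 =>
    have h6 : D ⟨y * z, Subalgebra.mul_mem _ hy hz⟩ =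
        ⟨y, hy⟩ * D ⟨z, hz⟩ + ⟨z, hz⟩ * D ⟨y, hy⟩ := by
      have := D.leibniz (⟨y, hy⟩ : R K p a) ⟨z, hz⟩
      rwa [smul_eq_mul, smul_eq_mul] at this
    rw [h6]
    exact Ideal.add_mem _ (Ideal.mul_mem_left _ _ h2) (Ideal.mul_mem_left _ _ h1)

theorem f_notMem_imageIdeal (π : O →+* K) (hπ : π p = 0) (hp0 : p ≠ 0)
    (ha : (1 - p ^ 2) * a = 1) :
    (2 * sB K p a + 1) * (2 * sB K p a) ∉ imageIdeal K (R K p a) := by
  intro h
  have h1 : imageIdeal K (R K p a) ≤ M K p a π hp0 := by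
    unfold imageIdeal
    rw [Ideal.span_le]
    rintro _ ⟨D, b, hD, rfl⟩
    exact der_mem K p a π hπ hD hp0 ha b b.2
  exact f_notMem K p a π hp0 (h1 h)

end

end Pool.Agent.X288.LN.B
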