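import Pool.Agent.X288.LN.ExB2

/-!
# The second surface is of type B
-/

set_option autoImplicit false
set_option linter.unusedSectionVars false

open Polynomial

namespace Pool.Agent.X288.LN.B

variable (K : Type*) [Field K] [CharZero K] {O : Type*} [CommRing O] [Algebra K O] (p a : O)

theorem dmem (b : O[X]) (hb : b ∈ R K p a) : C p * derivative b ∈ R K p a := by
  have hx := x_mem K p a
  have hs := s_mem K p a
  have hv := v_mem K p a
  induction hb using Algebra.adjoin_induction with
  | mem b hb =>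
    rcases hb with rfl | rfl | rfl | rfl | rfl
    · rw [← C_pow, derivative_C, mul_zero]; exact Subalgebra.zero_mem _
    · rw [derivative_C, mul_zero]; exact Subalgebra.zero_mem _
    · rw [deriv_s, show C p * C p ^ 3 = (C p ^ 2) * (C p ^ 2) by ring]
      exact Subalgebra.mul_mem _ hx hx
    · rw [deriv_v, show C p * (C p * (2 * sT p + 1)) = C p ^ 2 * (2 * sT p + 1) by ring]
      exact Subalgebra.mul_mem _ hx (Subalgebra.add_mem _
        (Subalgebra.mul_mem _ (ofNat_mem _ _) hs) (Subalgebra.one_mem _))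
    · rw [deriv_y, show C p * (X * ((sT p + 1) ^ 2 * (5 * sT p + 2))) =
        vT p * ((sT p + 1) * (5 * sT p + 2)) by
          rw [show vT p = C p * X * (sT p + 1) from rfl]; ring]
      exact Subalgebra.mul_mem _ hv (Subalgebra.mul_mem _
        (Subalgebra.add_mem _ hs (Subalgebra.one_mem _))
        (Subalgebra.add_mem _ (Subalgebra.mul_mem _ (ofNat_mem _ _) hs) (ofNat_mem _ _)))
  | algebraMap r =>
    have h7 : derivative (algebraMap K O[X] r) = 0 := by
      have : algebraMap K O[X] r = C (algebraMap K O r) := rfl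
      rw [this, derivative_C]
    rw [h7, mul_zero]; exact Subalgebra.zero_mem _
  | add y z hy hz h1 h2 =>
    rw [derivative_add, mul_add]
    exact Subalgebra.add_mem _ h1 h2
  | mul y z hy hz h1 h2 =>
    rw [derivative_mul, show C p * (derivative y * z + y * derivative z) =
      (C p * derivative y) * z + y * (C p * derivative z) by ring]
    exact Subalgebra.add_mem _ (Subalgebra.mul_mem _ h1 hz) (Subalgebra.mul_mem _ hy h2)

/-- The locally nilpotent derivation `p d/dr`. -/
noncomputable def dR : Derivation K (R K p a) (R K p a) :=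
  Derivation.mk'
    { toFun := fun b => ⟨C p * derivative (b : O[X]), dmem K p a b b.2⟩
      map_add' := by
        intro b c
        apply Subtype.ext
        show C p * derivative ((b : O[X]) + (c : O[X])) = C p * derivative (b : O[X]) +
          C p * derivative (c : O[X])
        rw [derivative_add, mul_add]
      map_smul' := by
        intro r b
        apply Subtype.ext
        show C p * derivative (r • (b : O[X])) = r • (C p * derivative (b : O[X]))
        rw [derivative_smul, mul_smul_comm] }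
    (by
      intro b c
      apply Subtype.ext
      show C p * derivative ((b : O[X]) * (c : O[X])) =
        (b : O[X]) * (C p * derivative (c : O[X])) + (c : O[X]) * (C p * derivative (b : O[X]))
      rw [derivative_mul]
      ring)

theorem coe_dR (b : R K p a) : (dR K p a b : O[X]) = C p * derivative (b : O[X]) := rfl

theorem coe_dR_iterate (b : R K p a) (n : ℕ) : ((⇑(dR K p a))^[n] b : O[X]) =
    C p ^ n * (⇑derivative)^[n] (b : O[X]) := by
  induction n with
  | zero => simp
  | succ n ih =>
    rw [Function.iterate_succ_apply', coe_dR, ih, Function.iterate_succ_apply', ← C_pow,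
      derivative_C_mul, C_pow]
    ring

theorem nonrigid [IsDomain O] (hp0 : p ≠ 0) :
    ∃ D : Derivation K (R K p a) (R K p a), IsLND D ∧ D ≠ 0 := by
  refine ⟨dR K p a, fun b => ⟨(b : O[X]).natDegree + 1, ?_⟩, fun h => ?_⟩
  · apply Subtype.ext
    rw [coe_dR_iterate, Polynomial.iterate_derivative_eq_zero (Nat.lt_succ_self _), mul_zero]
    rfl
  · have h1 : (dR K p a (sB K p a) : O[X]) = C p * derivative (sT p) := rfl
    rw [h, deriv_s] at h1
    have h2 : (C p * C p ^ 3 : O[X]) = 0 := h1.symm
    have hC : (C p : O[X]) ≠ 0 := C_ne_zero.2 hp0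
    exact mul_ne_zero hC (pow_ne_zero 3 hC) h2

section

variable [IsDomain O] [CharZero O]

/-- The point `x = s = v = y = 0`. -/
noncomputable def q0 (π : O →+* K) : R K p a →+* K :=
  (π.comp (evalRingHom 0)).comp ((R K p a).val : R K p a →+* O[X])

theorem map_q0 (π : O →+* K) (f : (R K p a)[X]) : f.map (q0 K p a π) =
    ((emb (R K p a) f).map (mapRingHom π)).map (evalRingHom (0 : K)) := by
  have h : emb (R K p a) f = f.map ((R K p a).val : R K p a →+* O[X]) := rfl
  rw [h, map_map, map_map]
  congr 1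
  unfold q0
  apply RingHom.ext
  intro r
  show π (eval 0 (r : O[X])) = eval 0 ((r : O[X]).map π)
  rw [← map_zero π, eval_map_apply]

theorem map_q0' (π : O →+* K) (f : (R K p a)[X]) : f.map (q0 K p a π) =
    ((emb (R K p a) f).map (evalRingHom (0 : O))).map π := by
  have h : emb (R K p a) f = f.map ((R K p a).val : R K p a →+* O[X]) := rfl
  rw [h, map_map, map_map]
  rfl

theorem derX_x {D : Derivation K (R K p a)[X] (R K p a)[X]} (hD : IsLND (K := K) (R := (R K p a)[X]) D)
    (ha : (1 - p ^ 2) * a = 1) : D (C (xB K p a)) = 0 ∧ D (C (aB K p a)) = 0 := by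
  have h0 : (1 - xB K p a) * aB K p a = 1 := by
    apply Subtype.ext
    show (1 - C p ^ 2) * C a = (1 : O[X])
    rw [← C_1, ← C_pow, ← C_sub, ← C_mul, ha]
  have h1 : (1 - C (xB K p a)) * C (aB K p a) = (1 : (R K p a)[X]) := by
    rw [← C_1, ← C_sub, ← C_mul, h0]
  have h2 := unit_kill hD h1
  have h3 : C (aB K p a) * (1 - C (xB K p a)) = (1 : (R K p a)[X]) := by rw [mul_comm, h1]
  refine ⟨?_, unit_kill hD h3⟩
  have h5 : (1 - C (xB K p a)) + C (xB K p a) = (1 : (R K p a)[X]) := by ring
  have h4 : D ((1 - C (xB K p a)) + C (xB K p a)) = 0 :=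
    (congrArg D h5).trans D.map_one_eq_zero
  rw [map_add, h2, zero_add] at h4
  exact h4

theorem rel1 {D : Derivation K (R K p a)[X] (R K p a)[X]} (hD : IsLND (K := K) (R := (R K p a)[X]) D)
    (ha : (1 - p ^ 2) * a = 1) :
    cst p ^ 2 * emb (R K p a) (D (C (vB K p a))) =
      (2 * (cst p ^ 3 * tt) + 1) * emb (R K p a) (D (C (sB K p a))) := by
  obtain ⟨hx, -⟩ := derX_x K p a hD ha
  have h1 : C (xB K p a) * C (vB K p a) = C (sB K p a) * (C (sB K p a) + 1) := by
    rw [← C_mul, rel_v, C_mul, C_add, C_1]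
  have h2 := congrArg D h1
  rw [D.leibniz, D.leibniz, map_add, D.map_one_eq_zero, hx, smul_zero, add_zero, add_zero,
    smul_eq_mul, smul_eq_mul, smul_eq_mul] at h2
  have h3 := congrArg (emb (R K p a)) h2
  rw [map_mul, map_add, map_mul, map_mul, map_add, map_one, emb_C, emb_C, coe_xB, coe_sB, CxT,
    CsT] at h3
  rw [h3]
  ring

theorem rel2 {D : Derivation K (R K p a)[X] (R K p a)[X]} (hD : IsLND (K := K) (R := (R K p a)[X]) D) (hp0 : p ≠ 0)
    (ha : (1 - p ^ 2) * a = 1) :
    cst p * emb (R K p a) (D (C (yB K p a))) =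
      2 * (cst p ^ 3 * tt + 1) ^ 2 * tt * emb (R K p a) (D (C (vB K p a))) +
      cst p * tt ^ 2 * (cst p ^ 3 * tt + 1) ^ 2 * emb (R K p a) (D (C (sB K p a))) := by
  obtain ⟨hx, -⟩ := derX_x K p a hD ha
  have h1 : C (xB K p a) * C (yB K p a) = (C (sB K p a) + 1) * C (vB K p a) * C (vB K p a) := by
    rw [← C_mul, rel_y, C_mul, C_mul, C_add, C_1]
  have h2 := congrArg D h1
  rw [D.leibniz, D.leibniz, D.leibniz, map_add, D.map_one_eq_zero, hx, smul_zero, add_zero,
    add_zero, smul_eq_mul, smul_eq_mul, smul_eq_mul, smul_eq_mul, smul_eq_mul] at h2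
  have h3 := congrArg (emb (R K p a)) h2
  rw [map_mul, map_add, map_mul, map_mul, map_mul, map_add, map_add, map_mul, map_mul, map_add,
    map_one, emb_C, emb_C, emb_C, coe_xB, coe_sB, coe_vB, CxT, CsT, CvT] at h3
  have hP : cst p ≠ 0 := C_ne_zero.2 (C_ne_zero.2 hp0)
  apply mul_left_cancel₀ hP
  linear_combination h3

theorem zero_s (π : O →+* K) (hπ : π p = 0) {D : Derivation K (R K p a)[X] (R K p a)[X]}
    (hD : IsLND (K := K) (R := (R K p a)[X]) D) (ha : (1 - p ^ 2) * a = 1) :
    (emb (R K p a) (D (C (sB K p a)))).map (mapRingHom π) = 0 := by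
  have h := congrArg (Polynomial.map (mapRingHom π)) (rel1 K p a hD ha)
  have hP : (cst p).map (mapRingHom π) = 0 := by
    simp [cst, hπ]
  rw [Polynomial.map_mul, Polynomial.map_mul, Polynomial.map_add, Polynomial.map_mul,
    Polynomial.map_mul, Polynomial.map_pow, Polynomial.map_pow, hP, Polynomial.map_one] at h
  linear_combination -h

theorem zero_v (π : O →+* K) (hπ : π p = 0) {D : Derivation K (R K p a)[X] (R K p a)[X]}
    (hD : IsLND (K := K) (R := (R K p a)[X]) D) (hp0 : p ≠ 0) (ha : (1 - p ^ 2) * a = 1) :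
    (emb (R K p a) (D (C (vB K p a)))).map (mapRingHom π) = 0 := by
  have h := congrArg (Polynomial.map (mapRingHom π)) (rel2 K p a hD hp0 ha)
  have hP : (cst p).map (mapRingHom π) = 0 := by
    simp [cst, hπ]
  have hT : (tt : O[X][X]).map (mapRingHom π) = C X := by
    simp [tt]
  have h2 : (2 : O[X][X]).map (mapRingHom π) = 2 := by
    simp
  simp only [Polynomial.map_mul, Polynomial.map_add, Polynomial.map_pow, hP, hT, h2,
    Polynomial.map_one] at h
  have h3 : (2 * C X : K[X][X]) * (emb (R K p a) (D (C (vB K p a)))).map (mapRingHom π) = 0 := by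
    linear_combination -h
  have h4 : (2 * C X : K[X][X]) ≠ 0 := mul_ne_zero two_ne_zero (C_ne_zero.2 X_ne_zero)
  exact (mul_eq_zero.1 h3).resolve_left h4

theorem zero_y {D : Derivation K (R K p a)[X] (R K p a)[X]}
    (hD : IsLND (K := K) (R := (R K p a)[X]) D) (hp0 : p ≠ 0) (ha : (1 - p ^ 2) * a = 1) :
    (emb (R K p a) (D (C (yB K p a)))).map (evalRingHom (0 : O)) = 0 := by
  have h := congrArg (Polynomial.map (evalRingHom (0 : O))) (rel2 K p a hD hp0 ha)
  have hP : (cst p).map (evalRingHom (0 : O)) = C p := by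
    simp [cst]
  have hT : (tt : O[X][X]).map (evalRingHom (0 : O)) = 0 := by
    simp [tt]
  simp only [Polynomial.map_mul, Polynomial.map_add, Polynomial.map_pow, hP, hT,
    Polynomial.map_one] at h
  have h3 : (C p : O[X]) * (emb (R K p a) (D (C (yB K p a)))).map (evalRingHom (0 : O)) = 0 := by
    linear_combination h
  exact (mul_eq_zero.1 h3).resolve_left (C_ne_zero.2 hp0)

theorem zero_C (π : O →+* K) (hπ : π p = 0) {D : Derivation K (R K p a)[X] (R K p a)[X]}
    (hD : IsLND (K := K) (R := (R K p a)[X]) D) (hp0 : p ≠ 0) (ha : (1 - p ^ 2) * a = 1) (b : O[X]) (hb : b ∈ R K p a) :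
    (D (C ⟨b, hb⟩)).map (q0 K p a π) = 0 := by
  obtain ⟨hx, haD⟩ := derX_x K p a hD ha
  induction hb using Algebra.adjoin_induction with
  | mem b hb =>
    rcases hb with rfl | rfl | rfl | rfl | rfl
    · have : (⟨C p ^ 2, Algebra.subset_adjoin (by simp [gens])⟩ : R K p a) = xB K p a := rfl
      rw [this, hx, Polynomial.map_zero]
    · have : (⟨C a, Algebra.subset_adjoin (by simp [gens])⟩ : R K p a) = aB K p a := rfl
      rw [this, haD, Polynomial.map_zero]
    · have : (⟨sT p, Algebra.subset_adjoin (by simp [gens])⟩ : R K p a) = sB K p a := rfl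
      rw [this, map_q0, zero_s K p a π hπ hD ha, Polynomial.map_zero]
    · have : (⟨vT p, Algebra.subset_adjoin (by simp [gens])⟩ : R K p a) = vB K p a := rfl
      rw [this, map_q0, zero_v K p a π hπ hD hp0 ha, Polynomial.map_zero]
    · have : (⟨yT p, Algebra.subset_adjoin (by simp [gens])⟩ : R K p a) = yB K p a := rfl
      rw [this, map_q0', zero_y K p a hD hp0 ha, Polynomial.map_zero]
  | algebraMap r =>
    have h6 : D (C ⟨algebraMap K O[X] r, Subalgebra.algebraMap_mem _ _⟩) =
      D (algebraMap K (R K p a)[X] r) := rfl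
    rw [h6, D.map_algebraMap, Polynomial.map_zero]
  | add y z hy hz h1 h2 =>
    have h6 : (C ⟨y + z, Subalgebra.add_mem _ hy hz⟩ : (R K p a)[X]) = C ⟨y, hy⟩ + C ⟨z, hz⟩ := by
      rw [← C_add]; rfl
    rw [h6, map_add, Polynomial.map_add, h1, h2, add_zero]
  | mul y z hy hz h1 h2 =>
    have h6 : (C ⟨y * z, Subalgebra.mul_mem _ hy hz⟩ : (R K p a)[X]) = C ⟨y, hy⟩ * C ⟨z, hz⟩ := by
      rw [← C_mul]; rfl
    rw [h6, D.leibniz, smul_eq_mul, smul_eq_mul, Polynomial.map_add, Polynomial.map_mul,
      Polynomial.map_mul, h1, h2, mul_zero, mul_zero, add_zero]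

theorem chain (π : O →+* K) (hπ : π p = 0) {D : Derivation K (R K p a)[X] (R K p a)[X]}
    (hD : IsLND (K := K) (R := (R K p a)[X]) D) (hp0 : p ≠ 0) (ha : (1 - p ^ 2) * a = 1) (f : (R K p a)[X]) :
    (D f).map (q0 K p a π) =
      derivative (f.map (q0 K p a π)) * (D X).map (q0 K p a π) := by
  induction f using Polynomial.induction_on' with
  | add f g hf hg => rw [map_add, Polynomial.map_add, hf, hg, Polynomial.map_add, derivative_add,
      add_mul]
  | monomial n b =>
    rw [← C_mul_X_pow_eq_monomial, D.leibniz, D.leibniz_pow, smul_eq_mul, smul_eq_mul,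
      smul_eq_mul, Polynomial.map_add, Polynomial.map_mul, Polynomial.map_mul,
      zero_C K p a π hπ hD hp0 ha b b.2, mul_zero, add_zero, Polynomial.map_mul,
      Polynomial.map_pow, map_C, map_X, nsmul_eq_mul, Polynomial.map_mul, Polynomial.map_mul,
      Polynomial.map_pow, map_X, Polynomial.map_natCast, derivative_C_mul, derivative_X_pow]
    simp only [map_natCast]
    ring

theorem HDstar_ne_top (π : O →+* K) (hπ : π p = 0) (hp0 : p ≠ 0) (ha : (1 - p ^ 2) * a = 1) :
    HDstar K (R K p a)[X] ≠ ⊤ := by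
  intro h
  have hX : (X : (R K p a)[X]) ∈ HDstar K (R K p a)[X] := by rw [h]; trivial
  have key : ∀ f ∈ HDstar K (R K p a)[X], derivative (f.map (q0 K p a π)) = 0 := by
    intro f hf
    unfold HDstar at hf
    induction hf using Algebra.adjoin_induction with
    | mem f hf =>
      obtain ⟨D, hD, ⟨s, hs⟩, hf⟩ := hf
      have h1 := chain K p a π hπ hD hp0 ha s
      have h2 := chain K p a π hπ hD hp0 ha f
      rw [hs, Polynomial.map_one] at h1
      rw [hf, Polynomial.map_zero] at h2
      have h3 : (D X).map (q0 K p a π) ≠ 0 := by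
        intro h4
        rw [h4, mul_zero] at h1
        exact one_ne_zero h1
      exact (mul_eq_zero.1 h2.symm).resolve_right h3
    | algebraMap r =>
      have h6 : algebraMap K (R K p a)[X] r = C (algebraMap K (R K p a) r) := rfl
      rw [h6, map_C, derivative_C]
    | add f g _ _ h1 h2 => rw [Polynomial.map_add, derivative_add, h1, h2, add_zero]
    | mul f g _ _ h1 h2 => rw [Polynomial.map_mul, derivative_mul, h1, h2, zero_mul, mul_zero,
        add_zero]
  have := key X hX
  rw [map_X, derivative_X] at this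
  exact one_ne_zero this

end

end Pool.Agent.X288.LN.B
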